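import Pool.Agent.BSpi.Main

set_option autoImplicit false
set_option linter.unusedSectionVars false

open Equiv Equiv.Perm

namespace Pool.Agent.BSpi

variable {α : Type} [Fintype α] [DecidableEq α]

/-- `g` is the 3-cycle `a → b → c → a`. -/
def Is3 (g : Perm α) (a b c : α) : Prop :=
  g a = b ∧ g b = c ∧ g c = a ∧ a ≠ b ∧ b ≠ c ∧ c ≠ a ∧ ∀ x, x ≠ a → x ≠ b → x ≠ c → g x = x

lemma Is3.rot {g : Perm α} {a b c : α} (h : Is3 g a b c) : Is3 g b c a :=
  ⟨h.2.1, h.2.2.1, h.1, h.2.2.2.2.1, h.2.2.2.2.2.1, h.2.2.2.1,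
    fun x hb hc ha => h.2.2.2.2.2.2 x ha hb hc⟩

lemma Is3.eq {g h : Perm α} {a b c : α} (hg : Is3 g a b c) (hh : Is3 h a b c) : g = h := by
  ext x
  by_cases ha : x = a
  · rw [ha, hg.1, hh.1]
  by_cases hb : x = b
  · rw [hb, hg.2.1, hh.2.1]
  by_cases hc : x = c
  · rw [hc, hg.2.2.1, hh.2.2.1]
  rw [hg.2.2.2.2.2.2 x ha hb hc, hh.2.2.2.2.2.2 x ha hb hc]

lemma Is3.inv {g : Perm α} {a b c : α} (hg : Is3 g a b c) : Is3 g⁻¹ a c b := by
  obtain ⟨h1, h2, h3, h4, h5, h6, h7⟩ := hg
  refine ⟨?_, ?_, ?_, h6.symm, h5.symm, h4.symm, fun x ha hc hb => ?_⟩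
  · rw [inv_eq_iff_eq, h3]
  · rw [inv_eq_iff_eq, h2]
  · rw [inv_eq_iff_eq, h1]
  · rw [inv_eq_iff_eq, h7 x ha hb hc]

lemma Is3.conj {g : Perm α} {a b c : α} (hg : Is3 g a b c) (τ : Perm α) :
    Is3 (τ * g * τ⁻¹) (τ a) (τ b) (τ c) := by
  obtain ⟨h1, h2, h3, h4, h5, h6, h7⟩ := hg
  refine ⟨?_, ?_, ?_, fun h => h4 (τ.injective h), fun h => h5 (τ.injective h),
    fun h => h6 (τ.injective h), fun x ha hb hc => ?_⟩
  · simp [h1]
  · simp [h2]
  · simp [h3]
  · have h8 := h7 (τ⁻¹ x) (fun h => ha (by rw [← h]; simp)) (fun h => hb (by rw [← h]; simp))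
      (fun h => hc (by rw [← h]; simp))
    rw [Perm.mul_apply, Perm.mul_apply, h8]
    simp

lemma is3_of_ne {g : Perm α} (hg : g.IsThreeCycle) {a : α} (ha : g a ≠ a) :
    Is3 g a (g a) (g (g a)) := by
  have h1 := hg.nodup_iff_mem_support.2 (mem_support.2 ha)
  have h2 := hg.support_eq_iff_mem_support.2 (mem_support.2 ha)
  have h3 : g (g (g a)) = a := by
    have h4 : g ^ 3 = 1 := by rw [← hg.orderOf, pow_orderOf_eq_one]
    have h5 : (g ^ 3) a = a := by rw [h4]; rfl
    exact h5
  simp only [List.nodup_cons, List.mem_cons, List.not_mem_nil, or_false, not_or, not_false_eq_true,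
    List.nodup_nil, and_true] at h1
  refine ⟨rfl, rfl, h3, h1.1.1, h1.2, fun h => h1.1.2 h.symm, fun x h4 h5 h6 => ?_⟩
  rw [← notMem_support, h2]
  simp [h4, h5, h6]

lemma exists_is3 {g : Perm α} (hg : g.IsThreeCycle) : ∃ a b c, Is3 g a b c := by
  obtain ⟨a, ha⟩ : ∃ a, g a ≠ a := by
    by_contra h
    push Not at h
    exact hg.ne_one (Perm.ext h)
  exact ⟨_, _, _, is3_of_ne hg ha⟩

lemma Is3.support {g : Perm α} {a b c : α} (hg : Is3 g a b c) : g.support = {a, b, c} := by
  obtain ⟨h1, h2, h3, h4, h5, h6, h7⟩ := hg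
  ext x
  rw [mem_support]
  simp only [Finset.mem_insert, Finset.mem_singleton]
  constructor
  · intro h
    by_contra h8
    push Not at h8
    exact h (h7 x h8.1 h8.2.1 h8.2.2)
  · rintro (rfl | rfl | rfl)
    · rw [h1]; exact h4.symm
    · rw [h2]; exact h5.symm
    · rw [h3]; exact h6.symm

lemma Is3.isThreeCycle {g : Perm α} {a b c : α} (hg : Is3 g a b c) : g.IsThreeCycle := by
  rw [← card_support_eq_three_iff, hg.support]
  obtain ⟨h1, h2, h3, h4, h5, h6, h7⟩ := hg
  rw [Finset.card_eq_three]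
  exact ⟨a, b, c, h4, h6.symm, h5, rfl⟩

/-- The 3-cycle `a → b → c → a`. -/
def cyc (a b c : α) : Perm α := swap a b * swap b c

lemma is3_cyc {a b c : α} (h1 : a ≠ b) (h2 : b ≠ c) (h3 : c ≠ a) : Is3 (cyc a b c) a b c := by
  refine ⟨?_, ?_, ?_, h1, h2, h3, fun x ha hb hc => ?_⟩
  · simp only [cyc, Perm.mul_apply]
    rw [swap_apply_of_ne_of_ne h1 h3.symm, swap_apply_left]
  · simp only [cyc, Perm.mul_apply]
    rw [swap_apply_left, swap_apply_of_ne_of_ne h3 h2.symm]
  · simp only [cyc, Perm.mul_apply]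
    rw [swap_apply_right, swap_apply_right]
  · simp only [cyc, Perm.mul_apply]
    rw [swap_apply_of_ne_of_ne hb hc, swap_apply_of_ne_of_ne ha hb]

/-- The product of the two permutations is an involution. -/
def R (u v : Perm α) : Prop := u * v * (u * v) = 1 ∧ u * v ≠ 1

lemma lem1 {u v : Perm α} (hu : u.IsThreeCycle) (hv : v.IsThreeCycle) (h : R u v) :
    ∃ x y z d, Is3 u x y z ∧ Is3 v x y d ∧ d ≠ z := by
  obtain ⟨h1, h2⟩ := h
  have hap : ∀ x, u (v (u (v x))) = x := fun x => by
    have := congrArg (fun f : Perm α => f x) h1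
    simpa using this
  have hd : ∃ d, v d ≠ d ∧ u d = d := by
    by_contra hcon
    push Not at hcon
    obtain ⟨a, b, c, hu3⟩ := exists_is3 hu
    obtain ⟨p, q, r, hv3⟩ := exists_is3 hv
    have hs : v.support ⊆ u.support := fun x hx => by
      rw [mem_support] at hx ⊢
      exact hcon x hx
    have hs2 : v.support = u.support :=
      Finset.eq_of_subset_of_card_le hs (by rw [hu.card_support, hv.card_support])
    have hp : u p ≠ p := by
      rw [← mem_support, ← hs2, mem_support, hv3.1]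
      exact hv3.2.2.2.1.symm
    have hu4 := is3_of_ne hu hp
    have hup : u p ∈ v.support := by
      rw [hs2, mem_support]
      intro h
      exact hp (u.injective h)
    rw [hv3.support] at hup
    simp only [Finset.mem_insert, Finset.mem_singleton] at hup
    rcases hup with h3 | h3 | h3
    · exact hp h3
    · -- `u = v`
      have huq : u q ∈ v.support := by
        rw [hs2, mem_support]
        intro h
        have : u q ≠ q := by
          rw [← mem_support, ← hs2, mem_support, hv3.2.1]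
          exact hv3.2.2.2.2.1.symm
        exact this (u.injective h)
      rw [hv3.support] at huq
      simp only [Finset.mem_insert, Finset.mem_singleton] at huq
      rcases huq with h4 | h4 | h4
      · exact hu4.2.2.2.2.2.1 (by rw [h3]; exact h4)
      · have : u q ≠ q := by
          rw [← mem_support, ← hs2, mem_support, hv3.2.1]
          exact hv3.2.2.2.2.1.symm
        exact this h4
      · rw [h3, h4] at hu4
        have huv := hu4.eq hv3
        subst huv
        have h5 := hap p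
        rw [h3, h4, hu4.2.2.1, h3] at h5
        exact hu4.2.2.2.1 h5.symm
    · -- `u = v⁻¹`
      have hur : u r ∈ v.support := by
        rw [hs2, mem_support]
        intro h
        have : u r ≠ r := by
          rw [← mem_support, ← hs2, mem_support, hv3.2.2.1]
          exact hv3.2.2.2.2.2.1.symm
        exact this (u.injective h)
      rw [hv3.support] at hur
      simp only [Finset.mem_insert, Finset.mem_singleton] at hur
      rcases hur with h4 | h4 | h4
      · exact hu4.2.2.2.2.2.1 (by rw [h3]; exact h4)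
      · rw [h3, h4] at hu4
        have huv := hu4.eq hv3.inv
        apply h2
        rw [huv, inv_mul_cancel]
      · have : u r ≠ r := by
          rw [← mem_support, ← hs2, mem_support, hv3.2.2.1]
          exact hv3.2.2.2.2.2.1.symm
        exact this h4
  obtain ⟨d, hd1, hd2⟩ := hd
  have hv3 := is3_of_ne hv hd1
  set x := v d with hx
  set y := v x with hy
  have hux : u x = y := by
    have h3 := hap y
    rw [hv3.2.2.1, hd2, ← hx] at h3
    exact h3
  have hxy : x ≠ y := hv3.2.2.2.2.1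
  have hu3 : Is3 u x y (u y) := by
    have := is3_of_ne hu (a := x) (by rw [hux]; exact hxy.symm)
    rwa [hux] at this
  refine ⟨x, y, u y, d, hu3, hv3.rot, fun h => ?_⟩
  have h4 := hu3.2.2.1
  rw [← h, hd2] at h4
  exact hv3.2.2.2.1 h4

lemma lem2 {u v w : Perm α} {x y c d : α} (hu : Is3 u x y c) (hv : Is3 v x y d) (hcd : c ≠ d)
    (hw : w.IsThreeCycle) (h1 : R u w) (h2 : R v w) : w x = y := by
  obtain ⟨x1, y1, z1, e1, hu1, hw1, he1⟩ := lem1 hu.isThreeCycle hw h1
  obtain ⟨x2, y2, z2, e2, hv2, hw2, he2⟩ := lem1 hv.isThreeCycle hw h2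
  have hx1 : x1 = x ∨ x1 = y ∨ x1 = c := by
    have : x1 ∈ u.support := by rw [hu1.support]; simp
    rw [hu.support] at this
    simpa using this
  have hx2 : x2 = x ∨ x2 = y ∨ x2 = d := by
    have : x2 ∈ v.support := by rw [hv2.support]; simp
    rw [hv.support] at this
    simpa using this
  obtain ⟨a1, a2, a3, a4, a5, a6, a7⟩ := hu
  obtain ⟨b1, b2, b3, b4, b5, b6, b7⟩ := hv
  obtain ⟨c1, c2, c3, c4, c5, c6, c7⟩ := hu1
  obtain ⟨d1, d2, d3, d4, d5, d6, d7⟩ := hv2
  obtain ⟨f1, f2, f3, f4, f5, f6, f7⟩ := hw1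
  obtain ⟨g1, g2, g3, g4, g5, g6, g7⟩ := hw2
  rcases hx1 with rfl | rfl | rfl
  · rw [f1, ← c1, a1]
  · rcases hx2 with rfl | rfl | rfl
    · rw [g1, ← d1, b1]
    · grind
    · grind
  · rcases hx2 with rfl | rfl | rfl
    · rw [g1, ← d1, b1]
    · grind
    · grind

lemma R_of_is3 {u v : Perm α} {x y c d : α} (hu : Is3 u x y c) (hv : Is3 v x y d) (hcd : c ≠ d) :
    R u v := by
  obtain ⟨a1, a2, a3, a4, a5, a6, a7⟩ := hu
  obtain ⟨b1, b2, b3, b4, b5, b6, b7⟩ := hv
  constructor
  · ext t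
    simp only [Perm.mul_apply, Perm.one_apply]
    by_cases h1 : t = x
    · subst h1; rw [b1, a2, b7 c a6 (Ne.symm a5) hcd, a3]
    by_cases h2 : t = y
    · subst h2; rw [b2, a7 d b6 (Ne.symm b5) hcd.symm, b3, a1]
    by_cases h3 : t = c
    · subst h3; rw [b7 t h1 h2 hcd, a3, b1, a2]
    by_cases h4 : t = d
    · subst h4; rw [b3, a1, b2, a7 t h1 h2 h3]
    rw [b7 t h1 h2 h4, a7 t h1 h2 h3, b7 t h1 h2 h4, a7 t h1 h2 h3]
  · intro h
    have h1 : (u * v) x = x := by rw [h]; rfl
    rw [Perm.mul_apply, b1, a2] at h1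
    exact a6 h1

/-- Products of 3-cycles with two common points. -/
lemma is3_mul_inv {u v : Perm α} {x y c d : α} (hu : Is3 u x y c) (hv : Is3 v x y d)
    (hcd : c ≠ d) : Is3 (u⁻¹ * v) y d c := by
  have hui := hu.inv
  obtain ⟨a1, a2, a3, a4, a5, a6, a7⟩ := hui
  obtain ⟨b1, b2, b3, b4, b5, b6, b7⟩ := hv
  refine ⟨?_, ?_, ?_, b5, hcd.symm, ?_, fun t h1 h2 h3 => ?_⟩
  · rw [Perm.mul_apply, b2, a7 d b6 hcd.symm (Ne.symm b5)]
  · rw [Perm.mul_apply, b3, a1]
  · rw [Perm.mul_apply, b7 c (Ne.symm a4) a5 hcd, a2]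
  · exact a5
  · rw [Perm.mul_apply]
    by_cases h4 : t = x
    · subst h4; rw [b1, a3]
    rw [b7 t h4 h1 h2, a7 t h4 h3 h1]

/-- A subgroup containing all 3-cycles through two points contains all 3-cycles. -/
lemma mem_of_is3 (H : Subgroup (Perm α)) (p q : α) (hpq : p ≠ q)
    (hH : ∀ (g : Perm α) (i : α), Is3 g p q i → g ∈ H) (g : Perm α) (hg : g.IsThreeCycle) :
    g ∈ H := by
  have hq : ∀ (g : Perm α) (i j : α), Is3 g q j i → i ≠ p → j ≠ p → g ∈ H := by
    intro g i j h hi hj
    have h5 := h.2.2.2.2.1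
    have h1 := is3_cyc hpq h.2.2.2.2.2.1.symm hi
    have h2 := is3_cyc hpq h.2.2.2.1 hj
    have h3 := is3_mul_inv h1 h2 h5.symm
    rw [h.eq h3]
    exact mul_mem (inv_mem (hH _ _ h1)) (hH _ _ h2)
  have hp : ∀ (g : Perm α) (i j : α), Is3 g p j i → i ≠ q → j ≠ q → g ∈ H := by
    intro g i j h hi hj
    have h5 := h.2.2.2.2.1
    have h1 : Is3 (cyc p q i)⁻¹ q p i := (is3_cyc hpq hi.symm h.2.2.2.2.2.1).inv.rot.rot
    have h2 : Is3 (cyc p q j)⁻¹ q p j := (is3_cyc hpq hj.symm h.2.2.2.1.symm).inv.rot.rot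
    have h3 := is3_mul_inv h1 h2 h5.symm
    rw [h.eq h3]
    exact mul_mem (inv_mem (inv_mem (hH _ _ (is3_cyc hpq hi.symm h.2.2.2.2.2.1))))
      (inv_mem (hH _ _ (is3_cyc hpq hj.symm h.2.2.2.1.symm)))
  by_cases h1 : g p = p
  · by_cases h2 : g q = q
    · obtain ⟨a, b, c, h⟩ := exists_is3 hg
      have hap : ∀ x, x ∈ g.support → x ≠ p ∧ x ≠ q := fun x hx => by
        rw [mem_support] at hx
        exact ⟨fun he => hx (he ▸ h1), fun he => hx (he ▸ h2)⟩
      have ha := hap a (by rw [h.support]; simp)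
      have hb := hap b (by rw [h.support]; simp)
      have hc := hap c (by rw [h.support]; simp)
      have h3 : Is3 (cyc p a c) p a c := is3_cyc ha.1.symm h.2.2.2.2.2.1.symm hc.1
      have h4 : Is3 (cyc p a b) p a b := is3_cyc ha.1.symm h.2.2.2.1 hb.1
      have h5 := is3_mul_inv h3 h4 h.2.2.2.2.1.symm
      rw [h.eq h5]
      exact mul_mem (inv_mem (hp _ _ _ h3 hc.2 ha.2)) (hp _ _ _ h4 hb.2 ha.2)
    · have h := is3_of_ne hg h2
      refine hq g _ _ h (fun he => ?_) (fun he => ?_)
      · have h3 := h.2.2.1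
        rw [he, h1] at h3
        exact hpq h3
      · have h3 : g (g q) = g q := by rw [he, h1]
        exact h.2.2.2.2.1 h3.symm
  · have h := is3_of_ne hg h1
    by_cases h2 : g p = q
    · rw [h2] at h
      exact hH _ _ h
    · by_cases h3 : g (g p) = q
      · rw [h3] at h
        have h4 := h.inv
        have h5 := inv_mem (hH _ _ h4)
        rwa [inv_inv] at h5
      · exact hp g _ _ h h3 h2

/-- An automorphism of the alternating group which maps 3-cycles to 3-cycles is induced by a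
permutation. -/
theorem conj_of_three (φ : MulAut (alternatingGroup α)) (h5 : 5 ≤ Fintype.card α)
    (h : ∀ g : alternatingGroup α, IsThreeCycle (g : Perm α) → IsThreeCycle (φ g : Perm α)) :
    ∃ τ : Perm α, ∀ g, (φ g : Perm α) = τ * g * τ⁻¹ := by
  classical
  -- four points
  obtain ⟨p, q, hpq⟩ := Fintype.exists_pair_of_one_lt_card (α := α) (by omega)
  have hc1 : ({p, q} : Finset α).card < (Finset.univ : Finset α).card := by
    rw [Finset.card_univ]
    exact lt_of_le_of_lt Finset.card_le_two (by omega)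
  obtain ⟨i2, -, hi2⟩ := Finset.exists_mem_notMem_of_card_lt_card hc1
  have hc2 : ({p, q, i2} : Finset α).card < (Finset.univ : Finset α).card := by
    rw [Finset.card_univ]
    exact lt_of_le_of_lt Finset.card_le_three (by omega)
  obtain ⟨i3, -, hi3⟩ := Finset.exists_mem_notMem_of_card_lt_card hc2
  simp only [Finset.mem_insert, Finset.mem_singleton, not_or] at hi2 hi3
  -- the basic 3-cycles
  let g : α → alternatingGroup α := fun i =>
    if hi : i ≠ p ∧ i ≠ q then ⟨cyc p q i, (is3_cyc hpq hi.2.symm hi.1).isThreeCycle.mem_alternatingGroup⟩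
    else 1
  have hg : ∀ i, i ≠ p → i ≠ q → Is3 (g i : Perm α) p q i := by
    intro i h1 h2
    have : g i = ⟨cyc p q i, (is3_cyc hpq h2.symm h1).isThreeCycle.mem_alternatingGroup⟩ :=
      dif_pos ⟨h1, h2⟩
    rw [this]
    exact is3_cyc hpq h2.symm h1
  let u : α → Perm α := fun i => (φ (g i) : Perm α)
  have hu3 : ∀ i, i ≠ p → i ≠ q → (u i).IsThreeCycle := fun i h1 h2 =>
    h _ (hg i h1 h2).isThreeCycle
  have huinj : ∀ i j, i ≠ p → i ≠ q → j ≠ p → j ≠ q → u i = u j → i = j := by
    intro i j h1 h2 h3 h4 he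
    have h5 : g i = g j := φ.injective (Subtype.ext he)
    have h6 := (hg i h1 h2).2.1
    rw [h5, (hg j h3 h4).2.1] at h6
    exact h6.symm
  have huR : ∀ i j, i ≠ p → i ≠ q → j ≠ p → j ≠ q → i ≠ j → R (u i) (u j) := by
    intro i j h1 h2 h3 h4 hij
    obtain ⟨h5, h6⟩ := R_of_is3 (hg i h1 h2) (hg j h3 h4) hij
    constructor
    · have h7 : g i * g j * (g i * g j) = 1 := Subtype.ext h5
      have h8 := congrArg φ h7
      rw [map_mul, map_mul, map_one] at h8
      exact congrArg Subtype.val h8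
    · intro h7
      apply h6
      have h8 : φ (g i * g j) = 1 := by
        rw [map_mul]
        exact Subtype.ext h7
      rw [map_eq_one_iff φ φ.injective] at h8
      exact congrArg Subtype.val h8
  obtain ⟨x, y, z, d, h2x, h3x, hdz⟩ := lem1 (hu3 i2 hi2.1 hi2.2) (hu3 i3 hi3.1 hi3.2.1)
    (huR i2 i3 hi2.1 hi2.2 hi3.1 hi3.2.1 (Ne.symm hi3.2.2))
  have hux : ∀ i, i ≠ p → i ≠ q → u i x = y := by
    intro i h1 h2
    by_cases h4 : i = i2
    · rw [h4]; exact h2x.1
    by_cases h5 : i = i3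
    · rw [h5]; exact h3x.1
    exact lem2 h2x h3x hdz.symm (hu3 i h1 h2) (huR i2 i hi2.1 hi2.2 h1 h2 (Ne.symm h4))
      (huR i3 i hi3.1 hi3.2.1 h1 h2 (Ne.symm h5))
  have hxy : x ≠ y := h2x.2.2.2.1
  have hu : ∀ i, i ≠ p → i ≠ q → Is3 (u i) x y (u i y) := by
    intro i h1 h2
    have := is3_of_ne (hu3 i h1 h2) (a := x) (by rw [hux i h1 h2]; exact hxy.symm)
    rwa [hux i h1 h2] at this
  let t : α → α := fun i => if i = p then x else if i = q then y else u i y
  have htp : t p = x := if_pos rfl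
  have htq : t q = y := by
    change (if q = p then x else if q = q then y else u q y) = y
    rw [if_neg hpq.symm, if_pos rfl]
  have hti : ∀ i, i ≠ p → i ≠ q → t i = u i y := by
    intro i h1 h2
    change (if i = p then x else if i = q then y else u i y) = u i y
    rw [if_neg h1, if_neg h2]
  have htinj : Function.Injective t := by
    intro i j hij
    by_cases h1 : i = p
    · by_cases h2 : j = p
      · rw [h1, h2]
      by_cases h3 : j = q
      · rw [h1, h3, htp, htq] at hij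
        exact absurd hij hxy
      rw [h1, htp, hti j h2 h3] at hij
      exact absurd hij (hu j h2 h3).2.2.2.2.2.1.symm
    by_cases h2 : i = q
    · by_cases h3 : j = p
      · rw [h2, h3, htp, htq] at hij
        exact absurd hij.symm hxy
      by_cases h4 : j = q
      · rw [h2, h4]
      rw [h2, htq, hti j h3 h4] at hij
      exact absurd hij (hu j h3 h4).2.2.2.2.1
    by_cases h3 : j = p
    · rw [h3, htp, hti i h1 h2] at hij
      exact absurd hij (hu i h1 h2).2.2.2.2.2.1
    by_cases h4 : j = q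
    · rw [h4, htq, hti i h1 h2] at hij
      exact absurd hij (hu i h1 h2).2.2.2.2.1.symm
    rw [hti i h1 h2, hti j h3 h4] at hij
    refine huinj i j h1 h2 h3 h4 ((hu i h1 h2).eq ?_)
    rw [hij]
    exact hu j h3 h4
  let τ : Perm α := Equiv.ofBijective t (Finite.injective_iff_bijective.1 htinj)
  have hτ : ∀ i, τ i = t i := fun i => rfl
  refine ⟨τ, ?_⟩
  -- the two homomorphisms agree
  let f1 : alternatingGroup α →* Perm α := (alternatingGroup α).subtype.comp φ.toMonoidHom
  let f2 : alternatingGroup α →* Perm α :=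
    (MulAut.conj τ).toMonoidHom.comp (alternatingGroup α).subtype
  let H : Subgroup (Perm α) := (f1.eqLocus f2).map (alternatingGroup α).subtype
  have hH : ∀ (s : Perm α) (i : α), Is3 s p q i → s ∈ H := by
    intro s i hs
    have h1 : i ≠ p := hs.2.2.2.2.2.1
    have h2 : i ≠ q := hs.2.2.2.2.1.symm
    refine ⟨g i, ?_, (hg i h1 h2).eq hs⟩
    change (φ (g i) : Perm α) = τ * (g i : Perm α) * τ⁻¹
    have h3 := (hg i h1 h2).conj τ
    rw [hτ, hτ, hτ, htp, htq, hti i h1 h2] at h3
    exact (hu i h1 h2).eq h3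
  have hall : alternatingGroup α ≤ H := by
    rw [← closure_three_cycles_eq_alternating, Subgroup.closure_le]
    intro s hs
    exact mem_of_is3 H p q hpq hH s hs
  intro s
  obtain ⟨s', hs', he⟩ := hall s.2
  have : s' = s := Subtype.ext he
  rw [← this]
  exact hs'

end Pool.Agent.BSpi
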