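import Mathlib

set_option autoImplicit false
set_option linter.unusedSectionVars false

open Equiv Equiv.Perm

namespace Pool.Agent.BSpi

variable {α : Type} [Fintype α] [DecidableEq α]

/-- The normaliser of a cycle of prime length `r ≥ 5` on `r` or `r + 1` points contains an odd
permutation. -/
lemma odd_normalizer {σ : Perm α} (hσ : σ.IsCycle) (hr : (orderOf σ).Prime)
    (hr5 : 5 ≤ orderOf σ) (hc : Fintype.card α ≤ orderOf σ + 1) :
    ∃ (ν : Perm α) (j : ℕ), ν * σ * ν⁻¹ = σ ^ j ∧ sign ν = -1 := by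
  have hrF := Fact.mk hr
  obtain ⟨g, hg⟩ := IsCyclic.exists_generator (α := (ZMod (orderOf σ))ˣ)
  set r := orderOf σ with hrdef
  set j := (g : ZMod r).val with hj
  have hjz : (j : ZMod r) = (g : ZMod r) := ZMod.natCast_zmod_val _
  have hjc : j.Coprime (orderOf σ) := ZMod.val_coe_unit_coprime g
  have hcyc : (σ ^ j).IsCycle := hσ.pow_iff.2 hjc
  have hsupp : (σ ^ j).support = σ.support := support_pow_coprime hjc
  obtain ⟨ν0, hν0⟩ := isConj_iff.1 (hσ.isConj hcyc (by rw [hsupp]))
  obtain ⟨x0, hx0, hx0'⟩ := id hσ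
  have hν0x : σ (ν0 x0) ≠ ν0 x0 := by
    rw [← mem_support, ← hsupp, mem_support, ← hν0]
    have h0 : ν0⁻¹ (ν0 x0) = x0 := by simp
    simp only [Perm.mul_apply, h0]
    intro h
    exact hx0 (ν0.injective h)
  obtain ⟨i, hi⟩ := hσ.exists_pow_eq hν0x hx0
  set ν := σ ^ i * ν0 with hν
  have hνx0 : ν x0 = x0 := by rw [hν, Perm.mul_apply, hi]
  have hconj : ν * σ * ν⁻¹ = σ ^ j := by
    have h1 : ν * σ * ν⁻¹ = σ ^ i * (ν0 * σ * ν0⁻¹) * (σ ^ i)⁻¹ := by rw [hν]; group
    rw [h1, hν0, ← pow_add, add_comm, pow_add, mul_inv_cancel_right]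
  have hpow : ∀ m : ℕ, ν ((σ ^ m) x0) = (σ ^ (j * m)) x0 := by
    intro m
    have h1 : ν * σ ^ m = σ ^ (j * m) * ν := by
      rw [pow_mul, ← hconj, conj_pow]
      group
    have h2 := congrArg (fun f : Perm α => f x0) h1
    simp only [Perm.mul_apply, hνx0] at h2
    exact h2
  have heq : ∀ a b : ℕ, (σ ^ a) x0 = (σ ^ b) x0 ↔ (a : ZMod r) = (b : ZMod r) := by
    intro a b
    rw [ZMod.natCast_eq_natCast_iff, ← pow_eq_pow_iff_modEq, hσ.pow_eq_pow_iff]
    constructor
    · intro h
      exact ⟨x0, hx0, h⟩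
    · intro h
      have := hσ.pow_eq_pow_iff.2 h
      rw [this]
  have hj1 : (g : ZMod r) ≠ 1 := by
    intro h
    have hg1 : g = 1 := Units.ext h
    have h2 := hg (-1)
    rw [hg1, Subgroup.zpowers_one_eq_bot, Subgroup.mem_bot] at h2
    have h3 : (-1 : ZMod r) = 1 := by
      have := congrArg Units.val h2
      simpa using this
    have h4 : ((2 : ℕ) : ZMod r) = 0 := by
      push_cast
      linear_combination -h3
    rw [ZMod.natCast_eq_zero_iff] at h4
    have := Nat.le_of_dvd (by norm_num) h4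
    omega
  have hfix : ∀ y, σ y = y → ν y = y := by
    intro y hy
    have h1 : σ (ν y) = ν y := by
      by_contra h2
      have h3 : (σ ^ j) (ν y) ≠ ν y := by
        rw [← mem_support, hsupp, mem_support]
        exact h2
      apply h3
      rw [← hconj]
      simp [hy]
    have hcard : (σ.supportᶜ).card ≤ 1 := by
      rw [Finset.card_compl, ← hσ.orderOf]
      omega
    exact Finset.card_le_one.1 hcard _ (by simpa using h1) _ (by simpa using hy)
  have hrep : ∀ y, σ y ≠ y → ∃ m : ℕ, (σ ^ m) x0 = y := fun y hy => hσ.exists_pow_eq hx0 hy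
  have hmove : ∀ y, σ y ≠ y → y ≠ x0 → ν y ≠ y := by
    intro y hy hyx h
    obtain ⟨m, rfl⟩ := hrep y hy
    rw [hpow, heq, Nat.cast_mul, hjz] at h
    have h1 : ((g : ZMod r) - 1) * (m : ZMod r) = 0 := by linear_combination h
    rcases mul_eq_zero.1 h1 with h2 | h2
    · exact hj1 (sub_eq_zero.1 h2)
    · apply hyx
      have := (heq m 0).2 (by rw [h2]; simp)
      simpa using this
  have hsuppν : ν.support = σ.support.erase x0 := by
    ext y
    rw [mem_support, Finset.mem_erase, mem_support]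
    constructor
    · intro h
      exact ⟨fun h1 => h (h1 ▸ hνx0), fun h1 => h (hfix y h1)⟩
    · rintro ⟨h1, h2⟩
      exact hmove y h2 h1
  have hσx0 : σ (σ x0) ≠ σ x0 := fun h => hx0 (σ.injective h)
  have hcycν : ν.IsCycle := by
    refine ⟨σ x0, hmove _ hσx0 hx0, fun y hy => ?_⟩
    have hy1 : σ y ≠ y := fun h => hy (hfix y h)
    have hy2 : y ≠ x0 := fun h => hy (h ▸ hνx0)
    obtain ⟨m, rfl⟩ := hrep y hy1
    have hm : (m : ZMod r) ≠ 0 := by
      intro h
      apply hy2
      have := (heq m 0).2 (by rw [h]; simp)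
      simpa using this
    obtain ⟨k, hk⟩ := (mem_powers_iff_mem_zpowers).2 (hg (Units.mk0 (m : ZMod r) hm))
    have hk' : g ^ k = Units.mk0 (m : ZMod r) hm := hk
    have hiter : ∀ k : ℕ, (ν ^ k) (σ x0) = (σ ^ (j ^ k)) x0 := by
      intro k
      induction k with
      | zero => simp
      | succ k ih =>
        rw [pow_succ', Perm.mul_apply, ih, hpow, pow_succ', ]
    refine ⟨k, ?_⟩
    rw [zpow_natCast, hiter, heq]
    have := congrArg Units.val hk'
    rw [Nat.cast_pow, hjz]
    simpa using this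
  refine ⟨ν, j, hconj, ?_⟩
  rw [hcycν.sign, hsuppν, Finset.card_erase_of_mem (mem_support.2 hx0), ← hσ.orderOf, ← hrdef]
  have hodd : Even (r - 1) := by
    rcases hr.eq_two_or_odd' with h | h
    · omega
    · obtain ⟨t, ht⟩ := h
      exact ⟨t, by omega⟩
  rw [hodd.neg_one_pow]

/-- Conjugates of an even permutation `σ` of odd prime order are, up to powers, conjugate by even
permutations. -/
lemma conj_power (h5 : 5 ≤ Fintype.card α) (σ : Perm α) (hr : (orderOf σ).Prime)
    (τ : Perm α) :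
    ∃ (a : Perm α) (j : ℕ), a ∈ alternatingGroup α ∧ τ * σ * τ⁻¹ = (a * σ * a⁻¹) ^ j := by
  rcases Int.units_eq_one_or (sign τ) with hs | hs
  · exact ⟨τ, 1, mem_alternatingGroup.2 hs, by rw [pow_one]⟩
  -- an odd permutation normalising `⟨σ⟩`
  suffices h : ∃ (ν : Perm α) (j : ℕ), ν * σ * ν⁻¹ = σ ^ j ∧ sign ν = -1 by
    obtain ⟨ν, j, h1, h2⟩ := h
    refine ⟨τ * ν⁻¹, j, ?_, ?_⟩
    · rw [mem_alternatingGroup, map_mul, hs, sign_inv, h2]
      rfl
    · have h3 : τ * σ * τ⁻¹ = (τ * ν⁻¹) * (ν * σ * ν⁻¹) * (τ * ν⁻¹)⁻¹ := by group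
      rw [h3, h1, conj_pow]
  by_cases hcen : Subgroup.centralizer {σ} ≤ alternatingGroup α
  · obtain ⟨-, h2, h3⟩ := centralizer_le_alternating_iff.1 hcen
    obtain ⟨k, hk⟩ := cycleType_prime_order hr
    have hk0 : k = 0 := by
      have := h3 (orderOf σ)
      rw [hk, Multiset.count_replicate_self] at this
      omega
    subst hk0
    have hcyc : σ.IsCycle := by
      rw [← card_cycleType_eq_one, hk]
      simp
    have hsum : σ.cycleType.sum = orderOf σ := by
      rw [hk]
      simp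
    rw [hsum] at h2
    have hr5 : 5 ≤ orderOf σ := by
      by_contra hlt
      have h6 : orderOf σ = 4 := by omega
      rw [h6] at hr
      exact absurd hr (by norm_num)
    exact odd_normalizer hcyc hr hr5 h2
  · rw [SetLike.not_le_iff_exists] at hcen
    obtain ⟨ν, hν1, hν2⟩ := hcen
    refine ⟨ν, 1, ?_, ?_⟩
    · have h1 := Subgroup.mem_centralizer_iff.1 hν1 σ rfl
      rw [pow_one, mul_inv_eq_iff_eq_mul]
      exact h1.symm
    · rw [mem_alternatingGroup] at hν2
      exact (Int.units_eq_one_or (sign ν)).resolve_left hν2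

end Pool.Agent.BSpi
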