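import Pool.Agent.BSpi.Alt
import Pool.Agent.BSpi.Odd

set_option autoImplicit false
set_option linter.unusedSectionVars false

open Equiv Equiv.Perm
open scoped Nat

namespace Pool.Agent.BSpi

variable {α : Type} [Fintype α] [DecidableEq α]

lemma fact_ineq : ∀ k m : ℕ, 1 ≤ k → (k = 1 → 1 ≤ m) →
    2 * (m ! * 3 ^ (k + 1) * (k + 1)!) < 3 * (m + 3 * k)! := by
  have h3 : ∀ m : ℕ, (m + 3)! = (m + 3) * ((m + 2) * ((m + 1) * m !)) := fun m => rfl
  intro k
  induction k with
  | zero => intro m h; omega
  | succ k ih =>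
    intro m _ hm
    rcases Nat.eq_zero_or_pos k with h0 | h0
    · subst h0
      have h1 : 1 ≤ m := hm rfl
      have h2 : (m + 3 * (0 + 1))! = (m + 3) * ((m + 2) * ((m + 1) * m !)) := rfl
      rw [h2]
      have h4 : 0 < m ! := Nat.factorial_pos m
      have h5 : 24 ≤ (m + 3) * ((m + 2) * (m + 1)) := by
        have : 4 * (3 * 2) ≤ (m + 3) * ((m + 2) * (m + 1)) := by gcongr <;> omega
        omega
      have h6 : (m + 3) * ((m + 2) * ((m + 1) * m !)) = ((m + 3) * ((m + 2) * (m + 1))) * m ! := by
        ring
      rw [h6]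
      have h7 : (0 + 1 + 1)! = 2 := rfl
      rw [h7]
      have h8 := Nat.mul_le_mul_right (m !) h5
      norm_num
      linarith
    · by_cases h1 : k = 1
      · subst h1
        have h2 : (m + 3 * (1 + 1))! = (m + 6) * ((m + 5) * ((m + 4) * ((m + 3) * ((m + 2) *
          ((m + 1) * m !))))) := rfl
        rw [h2]
        have h4 : 0 < m ! := Nat.factorial_pos m
        have h5 : 720 ≤ (m + 6) * ((m + 5) * ((m + 4) * ((m + 3) * ((m + 2) * (m + 1))))) := by
          have : 6 * (5 * (4 * (3 * (2 * 1)))) ≤
            (m + 6) * ((m + 5) * ((m + 4) * ((m + 3) * ((m + 2) * (m + 1))))) := by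
            gcongr <;> omega
          omega
        have h6 : (m + 6) * ((m + 5) * ((m + 4) * ((m + 3) * ((m + 2) * ((m + 1) * m !))))) =
            ((m + 6) * ((m + 5) * ((m + 4) * ((m + 3) * ((m + 2) * (m + 1)))))) * m ! := by
          ring
        rw [h6]
        have h7 : (1 + 1 + 1)! = 6 := rfl
        rw [h7]
        have h8 := Nat.mul_le_mul_right (m !) h5
        norm_num
        linarith
      · have h2 := ih m (by omega) (fun h => absurd h h1)
        have h4 : (m + 3 * (k + 1))! = (m + 3 * k + 3) * ((m + 3 * k + 2) * ((m + 3 * k + 1) *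
          (m + 3 * k)!)) := h3 (m + 3 * k)
        rw [h4]
        have h5 : (k + 1 + 1)! = (k + 2) * (k + 1)! := rfl
        rw [h5, pow_succ]
        have h6 : 3 * (k + 2) ≤ (m + 3 * k + 3) * ((m + 3 * k + 2) * (m + 3 * k + 1)) := by
          have : (3 * (k + 2)) * (1 * 1) ≤
              (m + 3 * k + 3) * ((m + 3 * k + 2) * (m + 3 * k + 1)) := by
            have h7 : 3 * (k + 2) ≤ (m + 3 * k + 3) * 2 := by omega
            calc (3 * (k + 2)) * (1 * 1) ≤ ((m + 3 * k + 3) * 2) * (1 * 1) := by gcongr
              _ = (m + 3 * k + 3) * (2 * 1) := by ring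
              _ ≤ _ := by gcongr <;> omega
          omega
        calc 2 * (m ! * (3 ^ (k + 1) * 3) * ((k + 2) * (k + 1)!))
            = (3 * (k + 2)) * (2 * (m ! * 3 ^ (k + 1) * (k + 1)!)) := by ring
          _ < (3 * (k + 2)) * (3 * (m + 3 * k)!) := by gcongr
          _ ≤ ((m + 3 * k + 3) * ((m + 3 * k + 2) * (m + 3 * k + 1))) * (3 * (m + 3 * k)!) := by
              gcongr
          _ = _ := by ring

lemma card_centralizer_replicate (g : Perm α) (k : ℕ) (hk : 1 ≤ k)
    (h : g.cycleType = Multiset.replicate k 3) :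
    Nat.card (Subgroup.centralizer {g}) = (Fintype.card α - 3 * k)! * 3 ^ k * k ! := by
  rw [nat_card_centralizer, h, Multiset.sum_replicate, Multiset.prod_replicate,
    Multiset.toFinset_replicate, if_neg (by omega), Finset.prod_singleton,
    Multiset.count_replicate_self, smul_eq_mul, mul_comm k 3]

lemma card_cent_map (θ : MulAut (alternatingGroup α)) (t : alternatingGroup α) :
    Nat.card (Subgroup.centralizer {θ t}) = Nat.card (Subgroup.centralizer {t}) := by
  have h1 : Subgroup.centralizer {θ t} = (Subgroup.centralizer {t}).map θ.toMonoidHom := by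
    ext z
    constructor
    · intro hz
      refine ⟨θ.symm z, ?_, θ.apply_symm_apply z⟩
      rw [SetLike.mem_coe, Subgroup.mem_centralizer_iff]
      rintro _ rfl
      have h2 := Subgroup.mem_centralizer_iff.1 hz _ rfl
      apply θ.injective
      rw [map_mul, map_mul, θ.apply_symm_apply]
      exact h2
    · rintro ⟨w, hw, rfl⟩
      rw [Subgroup.mem_centralizer_iff]
      rintro _ rfl
      have h2 := Subgroup.mem_centralizer_iff.1 hw _ rfl
      change θ t * θ w = θ w * θ t
      rw [← map_mul, ← map_mul, h2]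
  rw [h1]
  exact Subgroup.card_map_of_injective θ.injective

lemma card_cent_le (t : alternatingGroup α) :
    Nat.card (Subgroup.centralizer {t}) ≤ Nat.card (Subgroup.centralizer {(t : Perm α)}) := by
  rw [← Subgroup.card_map_of_injective (f := (alternatingGroup α).subtype)
    (alternatingGroup α).subtype_injective]
  refine Subgroup.card_le_of_le ?_
  rintro _ ⟨w, hw, rfl⟩
  rw [Subgroup.mem_centralizer_iff]
  rintro _ rfl
  exact congrArg Subtype.val (Subgroup.mem_centralizer_iff.1 hw _ rfl)

lemma cent_le_two_mul [Nontrivial α] (t : alternatingGroup α) :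
    Nat.card (Subgroup.centralizer {(t : Perm α)}) ≤ 2 * Nat.card (Subgroup.centralizer {t}) := by
  set C := Subgroup.centralizer {(t : Perm α)} with hC
  have h1 := Subgroup.card_mul_index ((alternatingGroup α).subgroupOf C)
  have h2 : ((alternatingGroup α).subgroupOf C).index ≤ 2 := by
    have h3 : (alternatingGroup α).relIndex C ∣ (alternatingGroup α).index :=
      Subgroup.relIndex_dvd_index_of_normal _ _
    rw [alternatingGroup.index_eq_two] at h3
    exact Nat.le_of_dvd (by norm_num) h3
  have h3 : Nat.card ((alternatingGroup α).subgroupOf C) ≤ Nat.card (Subgroup.centralizer {t}) := by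
    rw [← Subgroup.card_map_of_injective (f := C.subtype) C.subtype_injective,
      ← Subgroup.card_map_of_injective (f := (alternatingGroup α).subtype)
        (alternatingGroup α).subtype_injective (K := Subgroup.centralizer {t})]
    refine Subgroup.card_le_of_le ?_
    rintro _ ⟨w, hw, rfl⟩
    refine ⟨⟨w, hw⟩, ?_, rfl⟩
    rw [SetLike.mem_coe, Subgroup.mem_centralizer_iff]
    rintro _ rfl
    exact Subtype.ext (Subgroup.mem_centralizer_iff.1 w.2 _ rfl)
  rw [← h1]
  calc _ ≤ Nat.card (Subgroup.centralizer {t}) * 2 := Nat.mul_le_mul h3 h2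
    _ = _ := mul_comm _ _

/-- If there are not exactly six points then automorphisms preserve 3-cycles. -/
lemma preserve (h5 : 5 ≤ Fintype.card α) (h6 : Fintype.card α ≠ 6)
    (θ : MulAut (alternatingGroup α)) (t : alternatingGroup α)
    (ht : IsThreeCycle (t : Perm α)) : IsThreeCycle (θ t : Perm α) := by
  have hnt : Nontrivial α := Fintype.one_lt_card_iff_nontrivial.1 (by omega)
  have hord : orderOf (θ t : Perm α) = 3 := by
    rw [Subgroup.orderOf_coe, MulEquiv.orderOf_eq, ← Subgroup.orderOf_coe, ht.orderOf]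
  obtain ⟨k, hk⟩ := cycleType_prime_order (σ := (θ t : Perm α)) (by rw [hord]; exact Nat.prime_three)
  rw [hord] at hk
  by_cases hk0 : k = 0
  · subst hk0
    exact hk
  exfalso
  have h1 := cent_le_two_mul t
  rw [← card_cent_map θ t] at h1
  have h2 := h1.trans (Nat.mul_le_mul_left 2 (card_cent_le (θ t)))
  rw [card_centralizer_replicate _ (k + 1) (by omega) hk,
    card_centralizer_replicate _ 1 le_rfl ht] at h2
  have h3 : 3 * (k + 1) ≤ Fintype.card α := by
    have := sum_cycleType_le (θ t : Perm α)
    rw [hk, Multiset.sum_replicate, smul_eq_mul] at this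
    omega
  obtain ⟨m, hm⟩ := Nat.exists_eq_add_of_le h3
  have h4 := fact_ineq k m (by omega) (fun h => by subst h; omega)
  have h7 : Fintype.card α - 3 * 1 = m + 3 * k := by omega
  have h8 : Fintype.card α - 3 * (k + 1) = m := by omega
  rw [h7, h8] at h2
  simp only [pow_one, Nat.factorial_one, mul_one] at h2
  omega

/-- On six points squares of automorphisms preserve 3-cycles. -/
lemma preserve_sq (h6 : Fintype.card α = 6)
    (γ : MulAut (alternatingGroup α)) (t : alternatingGroup α)
    (ht : IsThreeCycle (t : Perm α)) : IsThreeCycle (γ (γ t) : Perm α) := by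
  -- elements of order three
  have hty : ∀ z : alternatingGroup α, orderOf z = 3 → IsThreeCycle (z : Perm α) ∨
      (z : Perm α).cycleType = Multiset.replicate 2 3 := by
    intro z hz
    rw [← Subgroup.orderOf_coe] at hz
    obtain ⟨k, hk⟩ := cycleType_prime_order (σ := (z : Perm α)) (by rw [hz]; exact Nat.prime_three)
    rw [hz] at hk
    have := sum_cycleType_le (z : Perm α)
    rw [hk, Multiset.sum_replicate, smul_eq_mul, h6] at this
    have hk1 : k = 0 ∨ k = 1 := by omega
    rcases hk1 with rfl | rfl
    · exact Or.inl hk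
    · exact Or.inr hk
  have ho : ∀ z : alternatingGroup α, IsThreeCycle (z : Perm α) → orderOf z = 3 := fun z hz => by
    rw [← Subgroup.orderOf_coe, hz.orderOf]
  have ho2 : ∀ z : alternatingGroup α, (z : Perm α).cycleType = Multiset.replicate 2 3 →
      orderOf z = 3 := fun z hz => by
    rw [← Subgroup.orderOf_coe, ← lcm_cycleType, hz]
    decide
  -- elements of type 3,3 are conjugate
  have hc2 : ∀ y z : alternatingGroup α, (y : Perm α).cycleType = Multiset.replicate 2 3 →
      (z : Perm α).cycleType = Multiset.replicate 2 3 → IsConj y z := by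
    intro y z hy hz
    obtain ⟨τ, hτ⟩ := isConj_iff.1 (isConj_iff_cycleType_eq.2 (hy.trans hz.symm))
    have hcen : ¬ Subgroup.centralizer {(y : Perm α)} ≤ alternatingGroup α := by
      intro h
      have h1 := (centralizer_le_alternating_iff.1 h).2.2 3
      rw [hy, Multiset.count_replicate_self] at h1
      omega
    rw [SetLike.not_le_iff_exists] at hcen
    obtain ⟨ν, hν1, hν2⟩ := hcen
    have hν3 : sign ν = -1 := by
      rw [mem_alternatingGroup] at hν2
      exact (Int.units_eq_one_or (sign ν)).resolve_left hν2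
    have hν4 := Subgroup.mem_centralizer_iff.1 hν1 _ rfl
    rcases Int.units_eq_one_or (sign τ) with hs | hs
    · exact isConj_iff.2 ⟨⟨τ, mem_alternatingGroup.2 hs⟩, Subtype.ext hτ⟩
    · refine isConj_iff.2 ⟨⟨τ * ν, mem_alternatingGroup.2 ?_⟩, Subtype.ext ?_⟩
      · rw [map_mul, hs, hν3]
        rfl
      · change τ * ν * y * (τ * ν)⁻¹ = z
        rw [← hτ, mul_inv_rev]
        calc τ * ν * y * (ν⁻¹ * τ⁻¹) = τ * (ν * y) * ν⁻¹ * τ⁻¹ := by group
          _ = τ * (y * ν) * ν⁻¹ * τ⁻¹ := by rw [hν4]
          _ = _ := by group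
  have hconj : ∀ y z : alternatingGroup α, IsConj y z → ((γ y : alternatingGroup α) : Perm α).cycleType
      = ((γ z : alternatingGroup α) : Perm α).cycleType := by
    intro y z h
    obtain ⟨c, rfl⟩ := isConj_iff.1 h
    rw [map_mul, map_mul, map_inv]
    exact (cycleType_conj (σ := (γ y : Perm α)) (τ := (γ c : Perm α))).symm
  rcases hty (γ t) (by rw [MulEquiv.orderOf_eq, ho t ht]) with h1 | h1
  · -- `γ` preserves 3-cycles
    have h2 := hconj t (γ t) (alternatingGroup.isThreeCycle_isConj
      (by rw [Nat.card_eq_fintype_card]; omega) ht h1)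
    exact h2.symm.trans h1
  · rcases hty (γ (γ t)) (by rw [MulEquiv.orderOf_eq, MulEquiv.orderOf_eq, ho t ht]) with h2 | h2
    · exact h2
    · -- no 3-cycle would be in the image of `γ`
      exfalso
      obtain ⟨z, hz⟩ := γ.surjective t
      have hz3 : orderOf z = 3 := by
        rw [← MulEquiv.orderOf_eq γ z, hz, ho t ht]
      have h3 : (t : Perm α).cycleType = Multiset.replicate 2 3 := by
        rcases hty z hz3 with h4 | h4
        · rw [← hz, ← h1]
          exact hconj z t (alternatingGroup.isThreeCycle_isConj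
            (by rw [Nat.card_eq_fintype_card]; omega) h4 ht)
        · rw [← hz, ← h2]
          exact hconj z (γ t) (hc2 z (γ t) h4 h1)
      rw [ht.cycleType] at h3
      exact absurd (congrArg Multiset.card h3) (by decide)

end Pool.Agent.BSpi
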