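import Pool.Agent.BSpi.AltGood

set_option autoImplicit false

open Equiv Equiv.Perm

namespace Pool.Agent.BSpi

variable {π : Set ℕ}

lemma pow_conj_formula {n : ℕ} (f : MulAut (alternatingGroup (Fin n))) (τ : Perm (Fin n))
    (h : ∀ g, (f g : Perm (Fin n)) = τ * g * τ⁻¹) (k : ℕ) :
    ∀ g, ((f ^ k) g : Perm (Fin n)) = τ ^ k * g * (τ ^ k)⁻¹ := by
  induction k with
  | zero => intro g; simp
  | succ k ih =>
    intro g
    rw [pow_succ, MulAut.mul_apply, ih, h, pow_succ]
    group

lemma conj_injective {n : ℕ} (h5 : 5 ≤ n) :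
    Function.Injective (MulAut.conj : alternatingGroup (Fin n) →* MulAut _) := by
  rw [← MonoidHom.ker_eq_bot_iff, Subgroup.eq_bot_iff_forall]
  intro a ha
  rw [MonoidHom.mem_ker] at ha
  have h1 : a ∈ Subgroup.center (alternatingGroup (Fin n)) := by
    rw [Subgroup.mem_center_iff]
    intro g
    have h2 := congrArg (fun f : MulAut (alternatingGroup (Fin n)) => f g) ha
    simp only [MulAut.conj_apply, MulAut.one_apply] at h2
    exact (mul_inv_eq_iff_eq_mul.1 h2).symm
  rw [alternatingGroup.center_eq_bot (by rw [Nat.card_eq_fintype_card, Fintype.card_fin]; omega)]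
    at h1
  exact Subgroup.mem_bot.1 h1

set_option maxRecDepth 20000 in
/-- On six points, bad elements of order three make the whole group a `π`-group. -/
lemma six_three (y : alternatingGroup (Fin 6)) (hy3 : orderOf y = 3)
    (hy : ∀ s : alternatingGroup (Fin 6), IsPi π (Subgroup.closure {y, s * y * s⁻¹})) :
    IsPi π (⊤ : Subgroup (alternatingGroup (Fin 6))) := by
  have key : ∀ (y0 : Perm (Fin 6)) (p : ℕ), p.Prime → IsConj y0 (y : Perm (Fin 6)) →
      (∃ s0 : Perm (Fin 6), s0 ∈ alternatingGroup (Fin 6) ∧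
        (y0 * (s0 * y0 * s0⁻¹)) ^ p = 1 ∧ y0 * (s0 * y0 * s0⁻¹) ≠ 1) → p ∈ π := by
    rintro y0 p hp hc ⟨s0, hs0, h1, h2⟩
    obtain ⟨ρ, hρ⟩ := isConj_iff.1 hc
    have hs : ρ * s0 * ρ⁻¹ ∈ alternatingGroup (Fin 6) :=
      alternatingGroup.normal.conj_mem s0 hs0 ρ
    have h3 : ((y * ((⟨_, hs⟩ : alternatingGroup (Fin 6)) * y * (⟨_, hs⟩ :
        alternatingGroup (Fin 6))⁻¹) : alternatingGroup (Fin 6)) : Perm (Fin 6)) =
        ρ * (y0 * (s0 * y0 * s0⁻¹)) * ρ⁻¹ := by
      change (y : Perm (Fin 6)) * ((ρ * s0 * ρ⁻¹) * y * (ρ * s0 * ρ⁻¹)⁻¹) = _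
      rw [← hρ]
      group
    have := Fact.mk hp
    have h4 : orderOf (y * ((⟨_, hs⟩ : alternatingGroup (Fin 6)) * y * (⟨_, hs⟩ :
        alternatingGroup (Fin 6))⁻¹)) = p := by
      refine orderOf_eq_prime ?_ ?_
      · apply Subtype.ext
        rw [Subgroup.coe_pow, h3, conj_pow, h1]
        simp
      · intro h5
        have h6 := congrArg Subtype.val h5
        rw [h3] at h6
        apply h2
        have h7 : ρ * (y0 * (s0 * y0 * s0⁻¹)) * ρ⁻¹ = 1 := h6
        rwa [mul_inv_eq_one, mul_eq_left] at h7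
    exact (hy ⟨_, hs⟩).orderOf (mul_mem (left_mem _ _) (right_mem _ _)) p hp (by rw [h4])
  have hmem : ∀ a b c d : Fin 6, a ≠ b → c ≠ d → swap a b * swap c d ∈ alternatingGroup (Fin 6) :=
    fun a b c d h1 h2 => mul_mem_alternatingGroup_of_isSwap ⟨a, b, h1, rfl⟩ ⟨c, d, h2, rfl⟩
  have h3π : 3 ∈ π := (hy 1).orderOf (left_mem _ _) 3 Nat.prime_three (by rw [hy3])
  have h25 : 2 ∈ π ∧ 5 ∈ π := by
    have hz := hy3
    rw [← Subgroup.orderOf_coe] at hz
    obtain ⟨k, hk⟩ := cycleType_prime_order (σ := (y : Perm (Fin 6)))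
      (by rw [hz]; exact Nat.prime_three)
    rw [hz] at hk
    have := sum_cycleType_le (y : Perm (Fin 6))
    rw [hk, Multiset.sum_replicate, smul_eq_mul, Fintype.card_fin] at this
    have hk1 : k = 0 ∨ k = 1 := by omega
    rcases hk1 with rfl | rfl
    · have hc : IsConj (swap 0 1 * swap 1 2 : Perm (Fin 6)) (y : Perm (Fin 6)) := by
        rw [isConj_iff_cycleType_eq, hk]
        decide
      exact ⟨key _ 2 Nat.prime_two hc ⟨swap 0 3 * swap 0 4, hmem _ _ _ _ (by decide) (by decide),
        by decide, by decide⟩,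
        key _ 5 Nat.prime_five hc ⟨swap 0 3 * swap 1 4, hmem _ _ _ _ (by decide) (by decide),
        by decide, by decide⟩⟩
    · have hc : IsConj (swap 0 1 * swap 1 2 * (swap 3 4 * swap 4 5) : Perm (Fin 6))
          (y : Perm (Fin 6)) := by
        rw [isConj_iff_cycleType_eq, hk]
        decide
      exact ⟨key _ 2 Nat.prime_two hc ⟨swap 0 3 * swap 1 5, hmem _ _ _ _ (by decide) (by decide),
        by decide, by decide⟩,
        key _ 5 Nat.prime_five hc ⟨swap 0 1 * swap 0 3, hmem _ _ _ _ (by decide) (by decide),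
        by decide, by decide⟩⟩
  intro p hp hpd
  rw [Subgroup.card_top, nat_card_alternatingGroup, Nat.card_eq_fintype_card, Fintype.card_fin]
    at hpd
  have h1 : p ∣ 2 ^ 3 * 3 ^ 2 * 5 := hpd
  rcases (Nat.Prime.dvd_mul hp).1 h1 with h2 | h2
  · rcases (Nat.Prime.dvd_mul hp).1 h2 with h3 | h3
    · rw [(Nat.prime_dvd_prime_iff_eq hp Nat.prime_two).1 (hp.dvd_of_dvd_pow h3)]
      exact h25.1
    · rw [(Nat.prime_dvd_prime_iff_eq hp Nat.prime_three).1 (hp.dvd_of_dvd_pow h3)]
      exact h3π
  · rw [(Nat.prime_dvd_prime_iff_eq hp Nat.prime_five).1 h2]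
    exact h25.2

/-- Bad automorphisms of odd prime order of alternating groups. -/
theorem alt_bad (π : Set ℕ) (n : ℕ) (h5 : 5 ≤ n) (f : MulAut (alternatingGroup (Fin n)))
    (hr : (orderOf f).Prime) (hr2 : orderOf f ≠ 2) (hbad : BadAut π _ f) :
    ∃ y : alternatingGroup (Fin n), y ≠ 1 ∧
      ∀ β : MulAut (alternatingGroup (Fin n)), IsPi π (Subgroup.closure {y, β y}) := by
  have hcard : Fintype.card (Fin n) = n := Fintype.card_fin n
  obtain ⟨m, hm⟩ := hr.odd_of_ne_two hr2
  -- `f` preserves 3-cycles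
  have hf3 : ∀ g : alternatingGroup (Fin n), IsThreeCycle (g : Perm (Fin n)) →
      IsThreeCycle (f g : Perm (Fin n)) := by
    intro g hg
    by_cases h6 : n = 6
    · have h1 : (f ^ (m + 1)) ((f ^ (m + 1)) g) = f g := by
        rw [← MulAut.mul_apply, ← pow_add]
        have h2 : m + 1 + (m + 1) = orderOf f + 1 := by omega
        rw [h2, pow_succ, pow_orderOf_eq_one, one_mul]
      rw [← h1]
      exact preserve_sq (by rw [hcard]; exact h6) (f ^ (m + 1)) g hg
    · exact preserve (by omega) (by omega) f g hg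
  obtain ⟨τ, hτ⟩ := conj_of_three f (by omega) hf3
  have heven : τ ^ (orderOf f + 1) ∈ alternatingGroup (Fin n) := by
    rw [mem_alternatingGroup, map_pow]
    have h2 : orderOf f + 1 = 2 * (m + 1) := by omega
    rw [h2, pow_mul]
    rcases Int.units_eq_one_or (sign τ) with h | h <;> rw [h] <;> simp
  let y : alternatingGroup (Fin n) := ⟨τ ^ (orderOf f + 1), heven⟩
  have hfy : f = MulAut.conj y := by
    have h1 : f = f ^ (orderOf f + 1) := by
      rw [pow_succ, pow_orderOf_eq_one, one_mul]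
    rw [h1]
    ext g : 1
    apply Subtype.ext
    rw [pow_conj_formula f τ hτ]
    rfl
  have hinj := conj_injective h5
  have hyord : orderOf y = orderOf f := by
    rw [hfy]
    exact (orderOf_injective (MulAut.conj : alternatingGroup (Fin n) →* MulAut _) hinj y).symm
  have hy : ∀ s : alternatingGroup (Fin n), IsPi π (Subgroup.closure {y, s * y * s⁻¹}) := by
    intro s
    rw [← isPi_map_iff _ hinj, map_pair, map_mul, map_mul, map_inv, ← hfy]
    exact hbad s
  have hy1 : y ≠ 1 := by
    intro h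
    rw [h, orderOf_one] at hyord
    exact hr.one_lt.ne hyord
  have hord' : orderOf (y : Perm (Fin n)) = orderOf f := by
    rw [Subgroup.orderOf_coe, hyord]
  -- conjugates under permutations
  have hperm : ∀ (z : alternatingGroup (Fin n)) (ρ : Perm (Fin n)),
      (z : Perm (Fin n)) = ρ * y * ρ⁻¹ → IsPi π (Subgroup.closure {y, z}) := by
    intro z ρ hz
    obtain ⟨a, j, ha, haj⟩ := conj_power (by omega) (y : Perm (Fin n)) (by rw [hord']; exact hr) ρ
    refine (hy ⟨a, ha⟩).mono (closure_pair_le (left_mem _ _) ?_)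
    have h1 : z = ((⟨a, ha⟩ : alternatingGroup (Fin n)) * y *
        (⟨a, ha⟩ : alternatingGroup (Fin n))⁻¹) ^ j := by
      apply Subtype.ext
      rw [hz, haj]
      rfl
    rw [h1]
    exact Subgroup.pow_mem _ (right_mem _ _) j
  by_cases h6 : n = 6
  · subst h6
    by_cases hr3 : orderOf f = 3
    · refine ⟨y, hy1, fun β => ?_⟩
      exact (six_three y (hyord.trans hr3) hy).mono le_top
    · refine ⟨y, hy1, fun β => ?_⟩
      have hr5 : 4 ≤ orderOf f := by
        have := hr.two_le
        omega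
      have hct : ∀ z : alternatingGroup (Fin 6), orderOf z = orderOf f →
          (z : Perm (Fin 6)).cycleType = {orderOf f} := by
        intro z hz
        rw [← Subgroup.orderOf_coe] at hz
        obtain ⟨k, hk⟩ := cycleType_prime_order (σ := (z : Perm (Fin 6))) (by rw [hz]; exact hr)
        rw [hz] at hk
        have := sum_cycleType_le (z : Perm (Fin 6))
        rw [hk, Multiset.sum_replicate, smul_eq_mul, hcard] at this
        have hk0 : k = 0 := by
          by_contra hk0
          have h1 : 2 * 4 ≤ (k + 1) * orderOf f := by gcongr; omega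
          omega
        rw [hk, hk0]
        rfl
      have h1 : IsConj (y : Perm (Fin 6)) (β y : Perm (Fin 6)) := by
        rw [isConj_iff_cycleType_eq, hct y hyord, hct (β y) (by rw [MulEquiv.orderOf_eq, hyord])]
      obtain ⟨ρ, hρ⟩ := isConj_iff.1 h1
      exact hperm _ ρ hρ.symm
  · refine ⟨y, hy1, fun β => ?_⟩
    obtain ⟨ρ, hρ⟩ := conj_of_three β (by omega) (preserve (by omega) (by omega) β)
    exact hperm _ ρ (hρ y)

lemma alt_goodAt (π : Set ℕ) (n : ℕ) (h5 : 5 ≤ n) (r : ℕ) (hr : r.Prime) (hr2 : r ≠ 2) :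
    GoodAt π r (alternatingGroup (Fin n)) := by
  by_cases h : ∃ f : MulAut (alternatingGroup (Fin n)), orderOf f = r ∧ BadAut π _ f
  · obtain ⟨f, rfl, hf⟩ := h
    exact Or.inl (alt_bad π n h5 f hr hr2 hf)
  · push Not at h
    exact Or.inr fun f _ hf _ hfb _ => absurd hfb (h f hf)

/-- Every automorphism of `S` maps each element of order `r` to a conjugate of a power, and any two
outer automorphisms of order `r` are, up to powers, conjugate under inner automorphisms. -/
def RigidAt (r : ℕ) (S : Type) [Group S] : Prop :=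
  (∀ y : S, orderOf y = r → ∀ β : MulAut S, ∃ (a : S) (j : ℕ), β y = (a * y * a⁻¹) ^ j) ∧
    ∀ f f' : MulAut S, orderOf f = r → orderOf f' = r → (∀ s, f ≠ MulAut.conj s) →
      (∀ s, f' ≠ MulAut.conj s) →
      ∃ (a : S) (j : ℕ), f' = (MulAut.conj a * f * (MulAut.conj a)⁻¹) ^ j

lemma conj_injective_of_simple {S : Type} [Group S] (hS : IsSimpleGroup S)
    (hna : ∃ a b : S, a * b ≠ b * a) :
    Function.Injective (MulAut.conj : S →* MulAut S) := by
  rw [← MonoidHom.ker_eq_bot_iff]
  rcases hS.eq_bot_or_eq_top_of_normal _ (MonoidHom.normal_ker (MulAut.conj : S →* MulAut S))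
    with h | h
  · exact h
  · exfalso
    obtain ⟨a, b, hab⟩ := hna
    have h1 : a ∈ (MulAut.conj : S →* MulAut S).ker := by rw [h]; trivial
    rw [MonoidHom.mem_ker] at h1
    have h2 := congrArg (fun f : MulAut S => f b) h1
    simp only [MulAut.conj_apply, MulAut.one_apply] at h2
    exact hab (mul_inv_eq_iff_eq_mul.1 h2)

lemma RigidAt.goodAt {S : Type} [Group S] (hS : IsSimpleGroup S)
    (hna : ∃ a b : S, a * b ≠ b * a) {r : ℕ} (hr : r.Prime) (h : RigidAt r S) :
    GoodAt π r S := by
  have hinj := conj_injective_of_simple hS hna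
  by_cases hin : ∃ y : S, orderOf (MulAut.conj y) = r ∧ BadAut π S (MulAut.conj y)
  · obtain ⟨y, hyr, hyb⟩ := hin
    have hy : orderOf y = r := by
      rw [← hyr]
      exact (orderOf_injective (MulAut.conj : S →* MulAut S) hinj y).symm
    refine Or.inl ⟨y, ?_, fun β => ?_⟩
    · rintro rfl
      rw [orderOf_one] at hy
      exact hr.one_lt.ne hy
    · obtain ⟨a, j, haj⟩ := h.1 y hy β
      have h1 : IsPi π (Subgroup.closure {y, a * y * a⁻¹}) := by
        rw [← isPi_map_iff _ hinj, map_pair, map_mul, map_mul, map_inv]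
        exact hyb a
      refine h1.mono (closure_pair_le (left_mem _ _) ?_)
      rw [haj]
      exact Subgroup.pow_mem _ (right_mem _ _) j
  · push Not at hin
    refine Or.inr fun f f' hf hf' hfb hfb' => ?_
    obtain ⟨a, j, haj⟩ := h.2 f f' hf hf' (fun s hs => hin s (hs ▸ hf) (hs ▸ hfb))
      (fun s hs => hin s (hs ▸ hf') (hs ▸ hfb'))
    refine (hfb a).mono (closure_pair_le (left_mem _ _) ?_)
    rw [haj]
    exact Subgroup.pow_mem _ (right_mem _ _) j

lemma GoodAt.congr {S S' : Type} [Group S] [Group S'] (e : S ≃* S') {r : ℕ}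
    (h : GoodAt π r S') : GoodAt π r S := by
  rcases h with ⟨y, hy1, hy⟩ | h
  · refine Or.inl ⟨e.symm y, fun h => hy1 ?_, fun β => ?_⟩
    · rw [← e.apply_symm_apply y, h, map_one]
    · have h1 := hy ((MulAut.congr e) β)
      rw [← isPi_map_iff e.symm.toMonoidHom e.symm.injective, map_pair] at h1
      have h2 : e.symm.toMonoidHom (((MulAut.congr e) β) y) = β (e.symm y) := by
        change e.symm (e (β (e.symm y))) = _
        rw [e.symm_apply_apply]
      rw [h2] at h1
      exact h1
  · refine Or.inr fun f f' hf hf' hfb hfb' => ?_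
    let E := MulAut.congr e
    have hE : ∀ f : MulAut S, BadAut π S f → BadAut π S' (E f) := by
      intro f hfb s
      have h1 := (hfb (e.symm s)).map E.toMonoidHom
      rw [map_pair] at h1
      have h2 : E (MulAut.conj (e.symm s)) = MulAut.conj s := by
        ext t
        change e (e.symm s * e.symm t * (e.symm s)⁻¹) = s * t * s⁻¹
        simp
      have h3 : E.toMonoidHom (MulAut.conj (e.symm s) * f * (MulAut.conj (e.symm s))⁻¹) =
          MulAut.conj s * E f * (MulAut.conj s)⁻¹ := by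
        change E _ = _
        rw [map_mul, map_mul, map_inv, h2]
      rw [h3] at h1
      exact h1
    have h1 := h (E f) (E f') (by rw [MulEquiv.orderOf_eq, hf]) (by rw [MulEquiv.orderOf_eq, hf'])
      (hE f hfb) (hE f' hfb')
    rw [← isPi_map_iff E.toMonoidHom E.injective, map_pair]
    exact h1

end Pool.Agent.BSpi
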