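import Pool.Agent.BSpi.Reduction

set_option autoImplicit false

namespace Pool.Agent.BSpi

/-- The condition in the definition of a `BS_π`-group, for the conjugacy class of `x`: if each two
conjugates of `x` generate a `π`-group then the whole class generates a `π`-group. -/
def BSAt (π : Set ℕ) {G : Type} [Group G] (x : G) : Prop :=
  (∀ a b : G, IsConj x a → IsConj x b → IsPi π (Subgroup.closure {a, b})) →
    IsPi π (Subgroup.closure {y : G | IsConj x y})

/-- `G` is a `BS_π`-group. -/
def IsBS (π : Set ℕ) (G : Type) [Group G] : Prop := ∀ x : G, BSAt π x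

lemma normal_closure_conj {G : Type} [Group G] (x : G) :
    (Subgroup.closure {y : G | IsConj x y}).Normal := by
  constructor
  intro a ha g
  induction ha using Subgroup.closure_induction with
  | mem y hy =>
    refine Subgroup.subset_closure ?_
    exact IsConj.trans (show IsConj x y from hy) (isConj_iff.2 ⟨g, rfl⟩)
  | one => simp
  | mul a b _ _ iha ihb =>
    have : g * (a * b) * g⁻¹ = (g * a * g⁻¹) * (g * b * g⁻¹) := by group
    rw [this]
    exact mul_mem iha ihb
  | inv a _ ih =>
    have : g * a⁻¹ * g⁻¹ = (g * a * g⁻¹)⁻¹ := by group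
    rw [this]
    exact inv_mem ih

/-- All pairs of conjugates generate `π`-groups if the pairs with first entry `x` do. -/
lemma pairs_of_pairs {π : Set ℕ} {G : Type} [Group G] {x : G}
    (hx : ∀ g : G, IsPi π (Subgroup.closure {x, g * x * g⁻¹})) (a b : G)
    (ha : IsConj x a) (hb : IsConj x b) : IsPi π (Subgroup.closure {a, b}) := by
  obtain ⟨c, rfl⟩ := isConj_iff.1 ha
  obtain ⟨d, rfl⟩ := isConj_iff.1 hb
  have h1 := hx (c⁻¹ * d)
  have h2 : Subgroup.closure {c * x * c⁻¹, d * x * d⁻¹} =
      (Subgroup.closure {x, (c⁻¹ * d) * x * (c⁻¹ * d)⁻¹}).map (MulAut.conj c).toMonoidHom := by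
    rw [MonoidHom.map_closure, Set.image_pair]
    congr 2
    simp [MulAut.conj_apply, mul_assoc]
  rw [h2]
  exact h1.map _

lemma rel_of_isBS {π : Set ℕ} {G : Type} [Group G] (hG : IsBS π G) (N : Subgroup G) :
    RelBS π N := fun y _ hy =>
  ⟨_, normal_closure_conj y, hG y (pairs_of_pairs hy), Subgroup.subset_closure (IsConj.refl y)⟩

/-- The class of `x` generates a `π`-group if `x` lies in the radical. -/
lemma BSAt.of_inRad {π : Set ℕ} {G : Type} [Group G] {x : G} (h : InRad π x) :
    IsPi π (Subgroup.closure {y : G | IsConj x y}) := by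
  obtain ⟨M, hM, hMπ, hx⟩ := h
  refine hMπ.mono ?_
  rw [Subgroup.closure_le]
  intro y hy
  obtain ⟨c, rfl⟩ := isConj_iff.1 (show IsConj x y from hy)
  exact hM.conj_mem _ hx _

end Pool.Agent.BSpi
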