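import Mathlib

set_option autoImplicit false

namespace Pool.Agent.BSpi

/-- The subgroup `H` is a `π`-group: each prime divisor of its order lies in `π`. -/
def IsPi (π : Set ℕ) {G : Type} [Group G] (H : Subgroup G) : Prop :=
  ∀ p : ℕ, p.Prime → p ∣ Nat.card H → p ∈ π

/-- `x` lies in a normal `π`-subgroup of `G` (for finite `G`: in the `π`-radical). -/
def InRad (π : Set ℕ) {G : Type} [Group G] (x : G) : Prop :=
  ∃ M : Subgroup G, M.Normal ∧ IsPi π M ∧ x ∈ M

section

variable {π : Set ℕ} {G : Type} [Group G]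

lemma IsPi.mono {H K : Subgroup G} (hK : IsPi π K) (h : H ≤ K) : IsPi π H :=
  fun p hp hpH => hK p hp (hpH.trans (Subgroup.card_dvd_of_le h))

lemma IsPi.orderOf {H : Subgroup G} (hH : IsPi π H) {x : G} (hx : x ∈ H) (p : ℕ)
    (hp : p.Prime) (h : p ∣ orderOf x) : p ∈ π :=
  hH p hp (h.trans (H.orderOf_dvd_natCard hx))

lemma isPi_of_orders [Finite G] {H : Subgroup G}
    (h : ∀ x ∈ H, ∀ p : ℕ, p.Prime → _root_.orderOf x = p → p ∈ π) : IsPi π H := by
  intro p hp hpH
  have := Fact.mk hp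
  obtain ⟨x, hx⟩ := exists_prime_orderOf_dvd_card' p hpH
  exact h x x.2 p hp (by rw [Subgroup.orderOf_coe]; exact hx)

lemma isPi_bot : IsPi π (⊥ : Subgroup G) := fun p hp h => by
  rw [Subgroup.card_bot] at h
  exact absurd (Nat.dvd_one.1 h) hp.one_lt.ne'

lemma IsPi.sup [Finite G] {M K : Subgroup G} [M.Normal] (hM : IsPi π M) (hK : IsPi π K) :
    IsPi π (M ⊔ K) := by
  intro p hp h
  have h2 : Nat.card (M ⊔ K : Subgroup G) ∣ Nat.card M * Nat.card K := by
    have h3 := Subgroup.relIndex_mul_relIndex ⊥ M (M ⊔ K) bot_le le_sup_left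
    rw [Subgroup.relIndex_bot_left, Subgroup.relIndex_bot_left,
      Subgroup.relIndex_sup_left] at h3
    rw [← h3]
    exact Nat.mul_dvd_mul_left _ (Subgroup.relIndex_dvd_card M K)
  rcases (Nat.Prime.dvd_mul hp).1 (h.trans h2) with h4 | h4
  · exact hM p hp h4
  · exact hK p hp h4

/-- There is a largest normal `π`-subgroup. -/
lemma exists_radical (π : Set ℕ) (G : Type) [Group G] [Finite G] : ∃ M : Subgroup G, M.Normal ∧
    IsPi π M ∧ ∀ K : Subgroup G, K.Normal → IsPi π K → K ≤ M := by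
  classical
  have hfin : {K : Subgroup G | K.Normal ∧ IsPi π K}.Finite := Set.toFinite _
  have hne : {K : Subgroup G | K.Normal ∧ IsPi π K}.Nonempty :=
    ⟨⊥, inferInstance, isPi_bot⟩
  obtain ⟨M, hM, hmax⟩ := hfin.exists_maximal hne
  refine ⟨M, hM.1, hM.2, fun K hK hKπ => ?_⟩
  have hMn := hM.1
  have h1 : (M ⊔ K) ∈ {K : Subgroup G | K.Normal ∧ IsPi π K} :=
    ⟨inferInstance, hM.2.sup hKπ⟩
  exact le_sup_right.trans (hmax h1 le_sup_left)

lemma IsPi.map {G' : Type} [Group G'] {H : Subgroup G} (hH : IsPi π H) (f : G →* G') :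
    IsPi π (H.map f) := fun p hp h => hH p hp (h.trans (Subgroup.card_map_dvd H f))

lemma isPi_map_iff {G' : Type} [Group G'] {H : Subgroup G} (f : G →* G')
    (hf : Function.Injective f) : IsPi π (H.map f) ↔ IsPi π H := by
  refine ⟨fun h p hp hpd => h p hp ?_, fun h => h.map f⟩
  rwa [Subgroup.card_map_of_injective hf]

/-- Extension of a `π`-group by a `π`-group. -/
lemma isPi_of_map {G' : Type} [Group G'] [Finite G] {H : Subgroup G} (f : G →* G')
    (h1 : IsPi π (H.map f)) (h2 : IsPi π (H ⊓ f.ker)) : IsPi π H := by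
  intro p hp hpd
  have h3 : Nat.card (H.map f) * Nat.card (H ⊓ f.ker : Subgroup G) = Nat.card H := by
    have h4 := Subgroup.card_mul_index ((f.comp H.subtype).ker)
    have h5 : (f.comp H.subtype).ker.index = Nat.card (H.map f) := by
      rw [Subgroup.index_ker, MonoidHom.range_comp, Subgroup.range_subtype]
    have h6 : Nat.card (f.comp H.subtype).ker = Nat.card (H ⊓ f.ker : Subgroup G) := by
      rw [← Subgroup.card_map_of_injective (f := H.subtype) H.subtype_injective]
      congr 2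
      ext z
      constructor
      · rintro ⟨w, hw, rfl⟩
        exact ⟨w.2, hw⟩
      · intro hz
        exact ⟨⟨z, hz.1⟩, hz.2, rfl⟩
    rw [h5, h6, mul_comm] at h4
    exact h4
  rw [← h3] at hpd
  rcases (Nat.Prime.dvd_mul hp).1 hpd with h4 | h4
  · exact h1 p hp h4
  · exact h2 p hp h4

end

end Pool.Agent.BSpi
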