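import Pool.Agent.BSpi.Reduction

set_option autoImplicit false

namespace Pool.Agent.BSpi

variable {π : Set ℕ}

section construction

variable (N : Type) [Group N] (q : ℕ)

/-- The regular permutation module of `Aut N` over `ℤ/q`, written multiplicatively. -/
abbrev Tm : Type := MulAut N → Multiplicative (ZMod q)

/-- `Aut N` acts on the module by translations. -/
def act : MulAut N →* MulAut (Tm N q) where
  toFun a :=
    { toFun := fun t b => t (a⁻¹ * b)
      invFun := fun t b => t (a * b)
      left_inv := fun t => by funext b; simp
      right_inv := fun t => by funext b; simp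
      map_mul' := fun t t' => rfl }
  map_one' := by
    ext t b
    change t (1⁻¹ * b) = t b
    simp
  map_mul' a a' := by
    ext t b
    change t ((a * a')⁻¹ * b) = t (a'⁻¹ * (a⁻¹ * b))
    rw [mul_inv_rev, mul_assoc]

/-- The holomorph of `N`. -/
abbrev Hol : Type := N ⋊[MonoidHom.id (MulAut N)] MulAut N

/-- The group `T ⋊ (N ⋊ Aut N)`. -/
abbrev Big : Type := Tm N q ⋊[(act N q).comp (SemidirectProduct.rightHom : Hol N →* MulAut N)] Hol N

end construction

variable {N : Type} [Group N] {q : ℕ}

/-- The embedding of `N`. -/
def emb : N →* Big N q := SemidirectProduct.inr.comp SemidirectProduct.inl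

lemma emb_injective : Function.Injective (emb : N →* Big N q) := by
  intro a b h
  exact SemidirectProduct.inl_injective (SemidirectProduct.inr_injective h)

/-- The embedding of `T`. -/
def tin : Tm N q →* Big N q := SemidirectProduct.inl

lemma tin_comm_emb (t : Tm N q) (n : N) : tin t * emb n = emb n * tin t := by
  have h := SemidirectProduct.inl_aut (φ := (act N q).comp
    (SemidirectProduct.rightHom : Hol N →* MulAut N)) (SemidirectProduct.inl n) t
  have h1 : ((act N q).comp (SemidirectProduct.rightHom : Hol N →* MulAut N))
      (SemidirectProduct.inl n) t = t := by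
    rw [MonoidHom.comp_apply, SemidirectProduct.rightHom_inl, map_one]
    rfl
  rw [h1] at h
  -- `inl t = inr (inl n) * inl t * inr (inl n)⁻¹`
  change SemidirectProduct.inl t * SemidirectProduct.inr (SemidirectProduct.inl n) =
    SemidirectProduct.inr (SemidirectProduct.inl n) * SemidirectProduct.inl t
  rw [map_inv, eq_mul_inv_iff_mul_eq] at h
  exact h

lemma left_tin_emb (t : Tm N q) (n : N) : (tin t * emb n : Big N q).left = t := by
  simp [tin, emb]

lemma decomp (g : Big N q) : g = tin g.left * SemidirectProduct.inr g.right :=
  (SemidirectProduct.inl_left_mul_inr_right g).symm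

lemma aut_emb (β : MulAut N) (n : N) :
    (SemidirectProduct.inr (SemidirectProduct.inr β) : Big N q) * emb n *
      (SemidirectProduct.inr (SemidirectProduct.inr β) : Big N q)⁻¹ = emb (β n) := by
  have h := SemidirectProduct.inl_aut (φ := MonoidHom.id (MulAut N)) β n
  change _ = (SemidirectProduct.inr (SemidirectProduct.inl (β n)) : Big N q)
  have h1 : (MonoidHom.id (MulAut N)) β n = β n := rfl
  rw [h1] at h
  rw [h, map_mul, map_mul, map_inv, map_inv]
  rfl

lemma hol_emb (h : Hol N) (n : N) :
    (SemidirectProduct.inr h : Big N q) * emb n * (SemidirectProduct.inr h : Big N q)⁻¹ =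
      emb (h.left * (h.right n) * h.left⁻¹) := by
  have h0 : h = SemidirectProduct.inl h.left * SemidirectProduct.inr h.right :=
    (SemidirectProduct.inl_left_mul_inr_right h).symm
  have h1 : (SemidirectProduct.inr h : Big N q) =
      emb h.left * SemidirectProduct.inr (SemidirectProduct.inr h.right) := by
    conv_lhs => rw [h0]
    rw [map_mul]
    rfl
  rw [h1, mul_inv_rev]
  calc emb h.left * SemidirectProduct.inr (SemidirectProduct.inr h.right) * emb n *
        ((SemidirectProduct.inr (SemidirectProduct.inr h.right) : Big N q)⁻¹ * (emb h.left)⁻¹)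
      = emb h.left * (SemidirectProduct.inr (SemidirectProduct.inr h.right) * emb n *
        (SemidirectProduct.inr (SemidirectProduct.inr h.right) : Big N q)⁻¹) * (emb h.left)⁻¹ := by
        group
    _ = emb h.left * emb (h.right n) * (emb h.left)⁻¹ := by rw [aut_emb]
    _ = _ := by rw [← map_inv, ← map_mul, ← map_mul]

/-- Conjugates of elements of `N`. -/
lemma conj_emb (g : Big N q) (n : N) :
    g * emb n * g⁻¹ = emb (g.right.left * (g.right.right n) * g.right.left⁻¹) := by
  conv_lhs => rw [decomp g]
  rw [mul_inv_rev]
  calc tin g.left * SemidirectProduct.inr g.right * emb n *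
        ((SemidirectProduct.inr g.right : Big N q)⁻¹ * (tin g.left)⁻¹)
      = tin g.left * (SemidirectProduct.inr g.right * emb n *
        (SemidirectProduct.inr g.right : Big N q)⁻¹) * (tin g.left)⁻¹ := by group
    _ = tin g.left * emb (g.right.left * (g.right.right n) * g.right.left⁻¹) * (tin g.left)⁻¹ := by
        rw [hol_emb]
    _ = _ := by rw [tin_comm_emb, mul_inv_cancel_right]

lemma tin_pow (t : Tm N q) : (tin t : Big N q) ^ q = 1 := by
  rw [← map_pow]
  have : t ^ q = 1 := by
    funext b
    change (t b) ^ q = 1
    have h1 : Multiplicative.toAdd ((t b) ^ q) = 0 := by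
      rw [toAdd_pow]
      simp
    exact Multiplicative.toAdd.injective h1
  rw [this, map_one]

instance [Finite N] [NeZero q] : Finite (Big N q) := by
  have h1 : Finite (MulAut N) := inferInstance
  have h2 : Finite (Multiplicative (ZMod q)) := inferInstance
  have h3 : Finite (Tm N q) := inferInstance
  have h4 : Finite (Hol N) := Finite.of_equiv _ SemidirectProduct.equivProd.symm
  exact Finite.of_equiv _ SemidirectProduct.equivProd.symm

/-- Bad elements of the big group lie in `N`. -/
lemma bad_big [Finite N] (hq : q.Prime) (hqπ : q ∉ π) (g : Big N q)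
    (hg : ∀ c : Big N q, IsPi π (Subgroup.closure {g, c * g * c⁻¹})) :
    ∃ n : N, g = emb n := by
  have hqF := Fact.mk hq
  -- `g` commutes with `T`
  have hcomm : ∀ t : Tm N q, g * tin t * g⁻¹ = tin t := by
    intro t
    have h1 : g * tin t * g⁻¹ * (tin t)⁻¹ ∈ Subgroup.closure {g, tin t * g * (tin t)⁻¹} := by
      have h2 : g * tin t * g⁻¹ * (tin t)⁻¹ = g * (tin t * g * (tin t)⁻¹)⁻¹ := by group
      rw [h2]
      exact mul_mem (left_mem _ _) (inv_mem (right_mem _ _))
    have h2 : ∃ t' : Tm N q, g * tin t * g⁻¹ * (tin t)⁻¹ = tin t' := by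
      have h3 : (g * tin t * g⁻¹ * (tin t)⁻¹).right = 1 := by
        simp [tin]
      refine ⟨(g * tin t * g⁻¹ * (tin t)⁻¹).left, ?_⟩
      conv_lhs => rw [decomp (g * tin t * g⁻¹ * (tin t)⁻¹)]
      rw [h3, map_one, mul_one]
    obtain ⟨t', ht'⟩ := h2
    by_contra hne
    have h3 : g * tin t * g⁻¹ * (tin t)⁻¹ ≠ 1 := fun h => hne (mul_inv_eq_one.1 h)
    have h4 : orderOf (g * tin t * g⁻¹ * (tin t)⁻¹) = q := by
      refine orderOf_eq_prime ?_ h3
      rw [ht', tin_pow]
    exact hqπ ((hg (tin t)).orderOf h1 q hq (by rw [h4]))
  -- hence the component in `Aut N` is trivial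
  have hact : ∀ t : Tm N q, (act N q) g.right.right t = t := by
    intro t
    have h1 := congrArg SemidirectProduct.left (hcomm t)
    have h2 : (g * tin t * g⁻¹).left = (act N q) g.right.right t := by
      simp only [tin, SemidirectProduct.mul_left, SemidirectProduct.mul_right,
        SemidirectProduct.left_inl, SemidirectProduct.right_inl, SemidirectProduct.inv_left,
        mul_one, MonoidHom.comp_apply]
      have h3 : ((act N q) (SemidirectProduct.rightHom g.right))
          (((act N q) (SemidirectProduct.rightHom g.right⁻¹)) g.left⁻¹) = g.left⁻¹ := by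
        rw [← MulAut.mul_apply, ← map_mul, ← map_mul, mul_inv_cancel, map_one, map_one]
        rfl
      rw [h3, mul_comm g.left, mul_assoc, mul_inv_cancel, mul_one]
      rfl
    rw [h2] at h1
    exact h1
  have hr : g.right.right = 1 := by
    classical
    by_contra hne
    let t : Tm N q := fun b => if b = 1 then Multiplicative.ofAdd 1 else 1
    have h1 := congrFun (hact t) g.right.right
    have h2 : (act N q) g.right.right t g.right.right = t (g.right.right⁻¹ * g.right.right) := rfl
    rw [h2, inv_mul_cancel] at h1
    have h3 : t 1 = Multiplicative.ofAdd 1 := if_pos rfl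
    have h4 : t g.right.right = 1 := if_neg hne
    rw [h3, h4] at h1
    have h5 : (1 : ZMod q) = 0 := congrArg Multiplicative.toAdd h1
    exact one_ne_zero h5
  have hg1 : g = tin g.left * emb g.right.left := by
    conv_lhs => rw [decomp g]
    congr 1
    change _ = SemidirectProduct.inr (SemidirectProduct.inl g.right.left)
    congr 1
    have := SemidirectProduct.inl_left_mul_inr_right g.right
    rw [hr, map_one, mul_one] at this
    exact this.symm
  -- the component in `T` is trivial
  have ht : tin g.left = (1 : Big N q) := by
    by_contra hne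
    have h1 : orderOf (tin g.left : Big N q) = q := orderOf_eq_prime (tin_pow _) hne
    have h2 : q ∣ orderOf g := by
      have h3 : g ^ orderOf g = 1 := pow_orderOf_eq_one g
      have h4 : Commute (tin g.left : Big N q) (emb g.right.left) := tin_comm_emb _ _
      have h5 : (tin g.left : Big N q) ^ orderOf g * (emb g.right.left) ^ orderOf g = 1 := by
        rw [← h4.mul_pow, ← hg1, h3]
      have h7 : (tin g.left : Big N q) ^ orderOf g = 1 := by
        rw [← map_pow, ← map_pow] at h5
        rw [← map_pow]
        have h8 := congrArg SemidirectProduct.left h5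
        rw [left_tin_emb] at h8
        have h10 : g.left ^ orderOf g = 1 := h8
        rw [h10, map_one]
      have h8 := orderOf_dvd_of_pow_eq_one h7
      rw [h1] at h8
      exact h8
    have h3 := hg 1
    exact hqπ (h3.orderOf (left_mem _ _) q hq h2)
  exact ⟨g.right.left, by conv_lhs => rw [hg1, ht, one_mul]⟩

end Pool.Agent.BSpi
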