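import Pool.Agent.BSpi.Tools

set_option autoImplicit false

namespace Pool.Agent.BSpi

variable {π : Set ℕ} {G : Type} [Group G]

/-- `T` is a minimal normal subgroup of the subgroup `M`. -/
def IsComp (M T : Subgroup G) : Prop :=
  T ≤ M ∧ T ≠ ⊥ ∧ (∀ m ∈ M, ∀ t ∈ T, m * t * m⁻¹ ∈ T) ∧
    ∀ K : Subgroup G, K ≤ T → K ≠ ⊥ → (∀ m ∈ M, ∀ k ∈ K, m * k * m⁻¹ ∈ K) → K = T

/-- The conjugate subgroup. -/
def cj (g : G) (T : Subgroup G) : Subgroup G := T.map (MulAut.conj g).toMonoidHom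

lemma mem_cj {g z : G} {T : Subgroup G} : z ∈ cj g T ↔ g⁻¹ * z * g ∈ T := by
  constructor
  · rintro ⟨t, ht, rfl⟩
    have : g⁻¹ * ((MulAut.conj g).toMonoidHom t) * g = t := by
      change g⁻¹ * (g * t * g⁻¹) * g = t
      group
    rw [this]
    exact ht
  · intro h
    refine ⟨_, h, ?_⟩
    change g * (g⁻¹ * z * g) * g⁻¹ = z
    group

lemma conj_mem_cj {g t : G} {T : Subgroup G} (ht : t ∈ T) : g * t * g⁻¹ ∈ cj g T := ⟨t, ht, rfl⟩

lemma card_cj (g : G) (T : Subgroup G) : Nat.card (cj g T) = Nat.card T :=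
  Subgroup.card_map_of_injective (MulAut.conj g).injective

lemma cj_cj (g h : G) (T : Subgroup G) : cj g (cj h T) = cj (g * h) T := by
  ext z
  rw [mem_cj, mem_cj, mem_cj]
  rw [mul_inv_rev]
  simp only [mul_assoc]

lemma cj_one (T : Subgroup G) : cj 1 T = T := by
  ext z
  rw [mem_cj]
  simp

lemma exists_comp [Finite G] (M : Subgroup G) (hM : M ≠ ⊥) : ∃ T, IsComp M T := by
  have hfin : {K : Subgroup G | K ≤ M ∧ K ≠ ⊥ ∧ ∀ m ∈ M, ∀ t ∈ K, m * t * m⁻¹ ∈ K}.Finite :=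
    Set.toFinite _
  obtain ⟨T, hT, hmin⟩ := hfin.exists_minimal
    ⟨M, le_rfl, hM, fun m hm t ht => mul_mem (mul_mem hm ht) (inv_mem hm)⟩
  refine ⟨T, hT.1, hT.2.1, hT.2.2, fun K hK hK0 hn => ?_⟩
  exact le_antisymm hK (hmin ⟨hK.trans hT.1, hK0, hn⟩ hK)

lemma IsComp.conj {M T : Subgroup G} [M.Normal] (h : IsComp M T) (g : G) : IsComp M (cj g T) := by
  have hcm : ∀ (g m : G), m ∈ M → g⁻¹ * m * g ∈ M := fun g m hm => by
    have := Subgroup.Normal.conj_mem (inferInstance : M.Normal) m hm g⁻¹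
    rwa [inv_inv] at this
  refine ⟨fun z hz => ?_, fun h0 => h.2.1 ?_, fun m hm t ht => ?_, fun K hK hK0 hn => ?_⟩
  · obtain ⟨t, ht, rfl⟩ := hz
    exact Subgroup.Normal.conj_mem inferInstance t (h.1 ht) g
  · rw [Subgroup.eq_bot_iff_forall] at h0 ⊢
    intro t ht
    have := h0 _ (conj_mem_cj (g := g) ht)
    rwa [mul_inv_eq_one, mul_eq_left] at this
  · rw [mem_cj] at ht ⊢
    have := h.2.2.1 _ (hcm g m hm) _ ht
    have h2 : g⁻¹ * m * g * (g⁻¹ * t * g) * (g⁻¹ * m * g)⁻¹ = g⁻¹ * (m * t * m⁻¹) * g := by group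
    rwa [h2] at this
  · have h1 : cj g⁻¹ K = T := by
      refine h.2.2.2 _ ?_ ?_ ?_
      · intro z hz
        rw [mem_cj, inv_inv] at hz
        have := hK hz
        rw [mem_cj] at this
        have h2 : g⁻¹ * (g * z * g⁻¹) * g = z := by group
        rwa [h2] at this
      · intro h0
        apply hK0
        rw [Subgroup.eq_bot_iff_forall] at h0 ⊢
        intro t ht
        have := h0 _ (conj_mem_cj (g := g⁻¹) ht)
        rwa [mul_inv_eq_one, mul_eq_left] at this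
      · intro m hm k hk
        rw [mem_cj, inv_inv] at hk ⊢
        have := hn _ (Subgroup.Normal.conj_mem inferInstance m hm g) _ hk
        have h2 : g * m * g⁻¹ * (g * k * g⁻¹) * (g * m * g⁻¹)⁻¹ = g * (m * k * m⁻¹) * g⁻¹ := by
          group
        rwa [h2] at this
    rw [← h1, cj_cj, mul_inv_cancel, cj_one]

lemma IsComp.inf_eq_bot {M T T' : Subgroup G} (h : IsComp M T) (h' : IsComp M T') (hne : T ≠ T') :
    T ⊓ T' = ⊥ := by
  by_contra h0
  have hn : ∀ m ∈ M, ∀ k ∈ T ⊓ T', m * k * m⁻¹ ∈ T ⊓ T' := fun m hm k hk =>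
    ⟨h.2.2.1 m hm k hk.1, h'.2.2.1 m hm k hk.2⟩
  exact hne ((h.2.2.2 _ inf_le_left h0 hn).symm.trans (h'.2.2.2 _ inf_le_right h0 hn))

lemma IsComp.commute {M T T' : Subgroup G} (h : IsComp M T) (h' : IsComp M T') (hne : T ≠ T')
    {a b : G} (ha : a ∈ T) (hb : b ∈ T') : Commute a b := by
  have h1 : a * b * a⁻¹ * b⁻¹ ∈ T ⊓ T' := by
    refine ⟨?_, T'.mul_mem (h'.2.2.1 a (h.1 ha) b hb) (T'.inv_mem hb)⟩
    have h2 : a * b * a⁻¹ * b⁻¹ = a * (b * a⁻¹ * b⁻¹) := by group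
    rw [h2]
    exact T.mul_mem ha (h.2.2.1 b (h'.1 hb) _ (T.inv_mem ha))
  rw [h.inf_eq_bot h' hne, Subgroup.mem_bot, mul_inv_eq_one, mul_inv_eq_iff_eq_mul] at h1
  exact h1

lemma IsComp.gen {M T : Subgroup G} [hM : M.Normal] (h : IsComp M T)
    (hmin : ∀ K : Subgroup G, K.Normal → K ≤ M → K ≠ ⊥ → K = M) (H : Subgroup G)
    (hH : ∀ g t : G, t ∈ T → g * t * g⁻¹ ∈ H) : M ≤ H := by
  have h1 : Subgroup.normalClosure (T : Set G) = M := by
    refine hmin _ inferInstance (Subgroup.normalClosure_le_normal h.1) fun h0 => h.2.1 ?_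
    rw [eq_bot_iff, ← h0]
    exact Subgroup.subset_normalClosure
  rw [← h1, Subgroup.normalClosure, Subgroup.closure_le]
  intro z hz
  rw [Group.mem_conjugatesOfSet_iff] at hz
  obtain ⟨t, ht, hc⟩ := hz
  obtain ⟨c, rfl⟩ := isConj_iff.1 hc
  exact hH c t ht

lemma IsComp.not_comm {M T : Subgroup G} [hM : M.Normal] (h : IsComp M T)
    (hmin : ∀ K : Subgroup G, K.Normal → K ≤ M → K ≠ ⊥ → K = M)
    (hna : ¬ ∀ a ∈ M, ∀ b ∈ M, a * b = b * a) : ¬ ∀ a ∈ T, ∀ b ∈ T, a * b = b * a := by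
  intro hc
  apply hna
  have h1 : ∀ g t : G, t ∈ T → ∀ m ∈ M, g * t * g⁻¹ * m = m * (g * t * g⁻¹) := by
    intro g t ht m hm
    have h2 := h.gen hmin (Subgroup.centralizer {g * t * g⁻¹}) (fun g' t' ht' => ?_) hm
    · exact (Subgroup.mem_centralizer_iff.1 h2 _ rfl)
    · rw [Subgroup.mem_centralizer_iff]
      rintro _ rfl
      by_cases he : cj g T = cj g' T
      · have h3 : g' * t' * g'⁻¹ ∈ cj g T := he ▸ conj_mem_cj ht'
        obtain ⟨t'', ht'', h4⟩ := h3
        have h5 : g' * t' * g'⁻¹ = g * t'' * g⁻¹ := h4.symm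
        rw [h5]
        have h6 := hc t ht t'' ht''
        calc g * t * g⁻¹ * (g * t'' * g⁻¹) = g * (t * t'') * g⁻¹ := by group
          _ = g * (t'' * t) * g⁻¹ := by rw [h6]
          _ = _ := by group
      · exact (h.conj g).commute (h.conj g') he (conj_mem_cj ht) (conj_mem_cj ht')
  intro a ha b hb
  have h2 := h.gen hmin (Subgroup.centralizer {b}) (fun g t ht => ?_) ha
  · exact (Subgroup.mem_centralizer_iff.1 h2 _ rfl).symm
  · rw [Subgroup.mem_centralizer_iff]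
    rintro _ rfl
    exact (h1 g t ht _ hb).symm

lemma IsComp.simple {M T : Subgroup G} [hM : M.Normal] (h : IsComp M T)
    (hmin : ∀ K : Subgroup G, K.Normal → K ≤ M → K ≠ ⊥ → K = M) : IsSimpleGroup T := by
  have hnt : Nontrivial T := (Subgroup.nontrivial_iff_ne_bot T).2 h.2.1
  refine ⟨fun K hK => ?_⟩
  by_cases h0 : K = ⊥
  · exact Or.inl h0
  right
  have h1 : K.map T.subtype = T := by
    refine h.2.2.2 _ (Subgroup.map_subtype_le K) ?_ ?_
    · intro h2
      exact h0 ((Subgroup.map_eq_bot_iff_of_injective K T.subtype_injective).1 h2)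
    · intro m hm k hk
      have h2 := h.gen hmin (Subgroup.normalizer ((K.map T.subtype : Subgroup G) : Set G))
        (fun g t ht => ?_) hm
      · exact ((Subgroup.mem_normalizer_iff.1 h2) k).1 hk
      · by_cases he : cj g T = T
        · have h3 : g * t * g⁻¹ ∈ T := by
            have := conj_mem_cj (g := g) ht
            rwa [he] at this
          have h4 : ∀ u : G, u ∈ T → ∀ z, z ∈ K.map T.subtype → u * z * u⁻¹ ∈ K.map T.subtype := by
            rintro u hu _ ⟨k, hk, rfl⟩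
            exact ⟨⟨u, hu⟩ * k * ⟨u, hu⟩⁻¹, hK.conj_mem k hk _, rfl⟩
          rw [Subgroup.mem_normalizer_iff]
          intro z
          refine ⟨h4 _ h3 z, fun hz => ?_⟩
          have h5 := h4 _ (inv_mem h3) _ hz
          have h6 : (g * t * g⁻¹)⁻¹ * (g * t * g⁻¹ * z * (g * t * g⁻¹)⁻¹) * (g * t * g⁻¹)⁻¹⁻¹ = z :=
            by group
          rwa [h6] at h5
        · refine Subgroup.centralizer_le_normalizer _ ?_
          rw [Subgroup.mem_centralizer_iff]
          rintro _ ⟨k, hk, rfl⟩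
          exact (h.commute (h.conj g) (Ne.symm he) k.2 (conj_mem_cj ht)).eq
  have h2 : K.map T.subtype = (⊤ : Subgroup T).map T.subtype := by
    rw [h1, ← MonoidHom.range_eq_map, Subgroup.range_subtype]
  exact Subgroup.map_injective T.subtype_injective h2

/-- A bad element normalises each component which is not a `π`-group. -/
lemma IsComp.normalised [Finite G] {M T : Subgroup G} [hM : M.Normal] (h : IsComp M T)
    (hT : ¬ IsPi π T) (x : G) (hx : ∀ m ∈ M, IsPi π (Subgroup.closure {x, m * x * m⁻¹})) :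
    cj x T = T := by
  by_contra hne
  have h1 : ∃ a ∈ T, ∃ s : ℕ, s.Prime ∧ orderOf a = s ∧ s ∉ π := by
    by_contra h2
    push Not at h2
    exact hT (isPi_of_orders fun a ha s hs hord => h2 a ha s hs hord)
  obtain ⟨a, ha, s, hs, hord, hsπ⟩ := h1
  have hcomm : Commute (x * a * x⁻¹) a⁻¹ :=
    (h.conj x).commute h hne (conj_mem_cj ha) (inv_mem ha)
  have hmem : x * a * x⁻¹ * a⁻¹ ∈ Subgroup.closure {x, a * x * a⁻¹} := by
    have h2 : x * a * x⁻¹ * a⁻¹ = x * (a * x * a⁻¹)⁻¹ := by group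
    rw [h2]
    exact mul_mem (left_mem _ _) (inv_mem (right_mem _ _))
  have hpow : (x * a * x⁻¹ * a⁻¹) ^ s = 1 := by
    rw [hcomm.mul_pow, conj_pow, inv_pow, ← hord, pow_orderOf_eq_one]
    group
  have h1 : x * a * x⁻¹ * a⁻¹ ≠ 1 := by
    intro h2
    rw [mul_inv_eq_one] at h2
    have h3 : a ∈ cj x T ⊓ T := ⟨h2 ▸ conj_mem_cj ha, ha⟩
    rw [(h.conj x).inf_eq_bot h hne, Subgroup.mem_bot] at h3
    rw [h3, orderOf_one] at hord
    exact hs.one_lt.ne hord
  have h4 : orderOf (x * a * x⁻¹ * a⁻¹) = s := by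
    have := Fact.mk hs
    exact orderOf_eq_prime hpow h1
  exact hsπ ((hx a (h.1 ha)).orderOf hmem s hs (by rw [h4]))

/-- If the minimal normal subgroup is not a `π`-group then no component is. -/
lemma IsComp.not_isPi [Finite G] {M T : Subgroup G} [hM : M.Normal] (h : IsComp M T)
    (hmin : ∀ K : Subgroup G, K.Normal → K ≤ M → K ≠ ⊥ → K = M) (hMπ : ¬ IsPi π M) :
    ¬ IsPi π T := by
  intro hT
  apply hMπ
  obtain ⟨Q, hQn, hQ, hmax⟩ := exists_radical π M
  have h1 : ∀ g t : G, t ∈ T → g * t * g⁻¹ ∈ Q.map M.subtype := by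
    intro g t ht
    have h2 : ((cj g T).subgroupOf M) ≤ Q := by
      refine hmax _ ?_ ?_
      · constructor
        intro n hn m
        rw [Subgroup.mem_subgroupOf] at hn ⊢
        exact (h.conj g).2.2.1 m m.2 _ hn
      · intro p hp hpd
        refine hT p hp ?_
        rw [← card_cj g T]
        refine hpd.trans ?_
        rw [← Subgroup.card_map_of_injective (f := M.subtype) M.subtype_injective
          (K := (cj g T).subgroupOf M)]
        refine Subgroup.card_dvd_of_le ?_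
        rintro _ ⟨y, hy, rfl⟩
        exact hy
    have h3 : g * t * g⁻¹ ∈ M := (h.conj g).1 (conj_mem_cj ht)
    exact ⟨⟨_, h3⟩, h2 (Subgroup.mem_subgroupOf.2 (conj_mem_cj ht)), rfl⟩
  exact ((isPi_map_iff M.subtype M.subtype_injective).2 hQ).mono (h.gen hmin _ h1)

end Pool.Agent.BSpi
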