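import Pool.Agent.BSpi.AltMain
import Pool.Agent.BSpi.BS
import Pool.Agent.BSpi.PSLn.All
import Pool.Agent.BSpi.Cls.InstSp
import Pool.Agent.BSpi.Cls.InstU3
import Pool.Agent.BSpi.Orth.Inst

set_option autoImplicit false

namespace Pool.Agent.BSpi

/-- The quotient by the centre. -/
abbrev ModCenter (G : Type) [Group G] : Type := G ⧸ Subgroup.center G

/-- The group `S` is isomorphic to the quotient of `G` by its centre. -/
def IsQuo (S G : Type) [Group S] [Group G] : Prop := Nonempty (S ≃* ModCenter G)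

/-- Alternating groups of degree at least five. -/
def IsAlt (S : Type) [Group S] : Prop :=
  ∃ n : ℕ, 5 ≤ n ∧ Nonempty (S ≃* alternatingGroup (Fin n))

/-- The groups `PSL(n, F)` for finite fields `F`. -/
def IsPSL (S : Type) [Group S] : Prop :=
  ∃ (n : ℕ) (F : Type) (_ : Field F) (_ : Finite F),
    Nonempty (S ≃* Matrix.ProjectiveSpecialLinearGroup (Fin n) F)

/-- The groups `PSp(2n, F)` for finite fields `F` and `n ≥ 2`. -/
def IsPSp (S : Type) [Group S] : Prop :=
  ∃ (n : ℕ) (F : Type) (_ : Field F) (_ : Finite F), 2 ≤ n ∧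
    IsQuo S (Matrix.symplecticGroup (Fin n) F)

/-- The groups `PSU(n, F)` for finite fields `F` with a nontrivial involution and `n ≥ 3`, where
`F` has more than four elements if `n = 3`. -/
def IsPSU (S : Type) [Group S] : Prop :=
  ∃ (n : ℕ) (F : Type) (_ : Field F) (_ : Finite F) (_ : StarRing F), 3 ≤ n ∧
    (n = 3 → 4 < Nat.card F) ∧ (∃ a : F, star a ≠ a) ∧
    IsQuo S (Matrix.specialUnitaryGroup (Fin n) F)

/-- The polar form of the quadratic form is nondegenerate and the dimension is at least seven. -/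
def OForm {F V : Type} [Field F] [AddCommGroup V] [Module F V] (Q : QuadraticForm F V) : Prop :=
  7 ≤ Module.finrank F V ∧ ∀ x, (∀ y, QuadraticMap.polar Q x y = 0) → x = 0

/-- The group `S` is isomorphic to the quotient of the commutator subgroup of `G` by the centre of
this commutator subgroup. -/
def IsDerQuo (S G : Type) [Group S] [Group G] : Prop := IsQuo S (commutator G)

/-- The groups `PΩ(V, Q)` for the quadratic forms just described over finite fields. Here
`Ω(V, Q)` is the commutator subgroup of the group `OGrp Q` of all isometries. -/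
def IsPO (S : Type) [Group S] : Prop :=
  ∃ (F V : Type) (_ : Field F) (_ : Finite F) (_ : AddCommGroup V) (_ : Module F V)
    (Q : QuadraticForm F V), OForm Q ∧ IsDerQuo S (Orth.OGrp Q)

/-- The simple group `S` is an alternating, linear, symplectic, unitary or orthogonal group. -/
def Listed (S : Type) [Group S] : Prop := IsAlt S ∨ IsPSL S ∨ IsPSp S ∨ IsPSU S ∨ IsPO S

lemma Listed.goodAt {π : Set ℕ} {S : Type} [Group S] [Finite S] (h : Listed S) (hS : IsSimpleGroup S)
    (hna : ∃ a b : S, a * b ≠ b * a) {r : ℕ} (hr : r.Prime) (hr2 : r ≠ 2) : GoodAt π r S := by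
  rcases h with ⟨n, hn, ⟨e⟩⟩ | ⟨n, F, _, _, ⟨e⟩⟩ | ⟨n, F, _, _, hn, ⟨e⟩⟩ |
    ⟨n, F, _, _, _, hn, hc, hs, ⟨e⟩⟩ | ⟨F, V, _, _, _, _, Q, ⟨hn, hQ⟩, ⟨e⟩⟩
  · exact (alt_goodAt π n hn r hr hr2).congr e
  · exact psl_all_goodAt hS hna hr hr2 n F e
  · exact Cls.sp_goodAt hS hna hr hr2 n hn F e
  · by_cases h3 : n = 3
    · subst h3
      exact Cls.su3_goodAt hS hna hr hr2 F hs (hc rfl) e
    · exact Cls.su_goodAt hS hna hr hr2 n (by omega) F hs e
  · exact Orth.o_goodAt hS hna hr hr2 F V Q hn hQ e

end Pool.Agent.BSpi
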