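import Pool.Agent.BSpi.Reduction

set_option autoImplicit false

namespace Pool.Agent.BSpi

variable {π : Set ℕ} {G : Type} [Group G]

lemma compFactor_comp {N M T : Subgroup G} (hM : M.Normal) (hMN : M ≤ N)
    (hT : IsComp M T) : CompFactor T N := by
  refine CompFactor.sub (Subgroup.inclusion hMN) (Subgroup.inclusion_injective hMN) ⟨?_⟩ ?_
  · rintro _ ⟨m, rfl⟩ g
    exact ⟨⟨g * m * g⁻¹, hM.conj_mem m m.2 g⟩, rfl⟩
  refine CompFactor.sub (Subgroup.inclusion hT.1) (Subgroup.inclusion_injective hT.1) ⟨?_⟩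
    CompFactor.refl
  rintro _ ⟨t, rfl⟩ m
  exact ⟨⟨m * t * (m : G)⁻¹, hT.2.2.1 m m.2 t t.2⟩, rfl⟩

lemma mem_zpowers_of_cyclic {C : Type} [Group C] [Finite C] [IsCyclic C] {a w : C}
    (h : orderOf a = orderOf w) : w ∈ Subgroup.zpowers a := by
  classical
  have := Fintype.ofFinite C
  have h1 : (Finset.univ.filter (fun b : C => b ^ orderOf a = 1)).card ≤ orderOf a :=
    IsCyclic.card_pow_eq_one_le (orderOf_pos a)
  have h2 : (Finset.univ.filter (fun b : C => b ∈ Subgroup.zpowers a)).card = orderOf a := by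
    rw [← Fintype.card_subtype, ← Nat.card_eq_fintype_card]
    exact Nat.card_zpowers a
  have h3 : (Finset.univ.filter (fun b : C => b ∈ Subgroup.zpowers a)) =
      (Finset.univ.filter (fun b : C => b ^ orderOf a = 1)) := by
    refine Finset.eq_of_subset_of_card_le (fun b hb => ?_) (h1.trans h2.ge)
    simp only [Finset.mem_filter, Finset.mem_univ, true_and] at hb ⊢
    exact orderOf_dvd_iff_pow_eq_one.1 (orderOf_dvd_of_mem_zpowers hb)
  have h4 : w ∈ Finset.univ.filter (fun b : C => b ^ orderOf a = 1) := by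
    simp only [Finset.mem_filter, Finset.mem_univ, true_and]
    rw [h, pow_orderOf_eq_one]
  rw [← h3] at h4
  simpa using h4

/-- If all `r`-subgroups of `N` are cyclic then the subgroups of `N` of order `r` are conjugate
in `N`. -/
lemma cyclic_conj [Finite G] (N : Subgroup G) {r : ℕ} (hr : r.Prime) (hcyc : CyclicAt r N)
    {z w : G} (hz : z ∈ N) (hw : w ∈ N) (hzr : orderOf z = r) (hwr : orderOf w = r) :
    ∃ n ∈ N, w ∈ Subgroup.zpowers (n * z * n⁻¹) := by
  have := Fact.mk hr
  let Z : N := ⟨z, hz⟩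
  let W : N := ⟨w, hw⟩
  have hZr : orderOf Z = r := by rw [← Subgroup.orderOf_coe]; exact hzr
  have hWr : orderOf W = r := by rw [← Subgroup.orderOf_coe]; exact hwr
  have hZp : IsPGroup r (Subgroup.zpowers Z) := IsPGroup.of_card (n := 1) (by
    rw [Nat.card_zpowers, hZr, pow_one])
  have hWp : IsPGroup r (Subgroup.zpowers W) := IsPGroup.of_card (n := 1) (by
    rw [Nat.card_zpowers, hWr, pow_one])
  obtain ⟨P, hP⟩ := hZp.exists_le_sylow
  obtain ⟨Q, hQ⟩ := hWp.exists_le_sylow
  obtain ⟨n, rfl⟩ := MulAction.exists_smul_eq N P Q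
  have hZ' : n * Z * n⁻¹ ∈ ((n • P : Sylow r N) : Subgroup N) := by
    have h1 : Z ∈ (P : Subgroup N) := hP (Subgroup.mem_zpowers Z)
    have h2 := Subgroup.smul_mem_pointwise_smul Z (MulAut.conj n) (P : Subgroup N) h1
    rwa [MulAut.smul_def, MulAut.conj_apply] at h2
  have hW' : W ∈ ((n • P : Sylow r N) : Subgroup N) := hQ (Subgroup.mem_zpowers W)
  have hc : IsCyclic ((n • P : Sylow r N) : Subgroup N) := hcyc _ (n • P).isPGroup'
  have hord : orderOf (n * Z * n⁻¹) = r := by
    have h1 : MulAut.conj n Z = n * Z * n⁻¹ := rfl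
    rw [← h1, MulEquiv.orderOf_eq, hZr]
  have hmem : (⟨W, hW'⟩ : ((n • P : Sylow r N) : Subgroup N)) ∈
      Subgroup.zpowers (⟨_, hZ'⟩ : ((n • P : Sylow r N) : Subgroup N)) := by
    refine mem_zpowers_of_cyclic ?_
    have e1 := Subgroup.orderOf_coe (⟨_, hZ'⟩ : ((n • P : Sylow r N) : Subgroup N))
    have e2 := Subgroup.orderOf_coe (⟨W, hW'⟩ : ((n • P : Sylow r N) : Subgroup N))
    rw [← e1, ← e2]
    exact hord.trans hWr.symm
  refine ⟨n, n.2, ?_⟩
  obtain ⟨k, hk⟩ := hmem
  refine ⟨k, ?_⟩
  have h1 := congrArg (fun u : ((n • P : Sylow r N) : Subgroup N) => ((u : N) : G)) hk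
  exact h1

/-- The case without abelian minimal normal subgroups. -/
lemma component_case [Finite G] (N : Subgroup G) [hN : N.Normal]
    (hnab : ∀ M : Subgroup G, M.Normal → M ≤ N → M ≠ ⊥ →
      (∀ K : Subgroup G, K.Normal → K ≤ M → K ≠ ⊥ → K = M) → ¬ ∀ a ∈ M, ∀ b ∈ M, a * b = b * a)
    (hR : ∀ y ∈ N, InRad π y → y = 1) (hrel : RelBS π N) (r : ℕ)
    (hr : r.Prime) (hrπ : r ∈ π)
    (hgood : ∀ (S : Type) [Group S] [Finite S], IsSimpleGroup S → (∃ a b : S, a * b ≠ b * a) →
      CompFactor S N → GoodAt π r S)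
    (x : G) (hxN : x ∈ N) (hord : orderOf x = r)
    (hx : ∀ m ∈ N, IsPi π (Subgroup.closure {x, m * x * m⁻¹})) : False := by
  have hrF := Fact.mk hr
  -- the components
  let K : Set G := {t | ∃ M T : Subgroup G, M.Normal ∧ M ≤ N ∧ M ≠ ⊥ ∧
    (∀ K : Subgroup G, K.Normal → K ≤ M → K ≠ ⊥ → K = M) ∧ IsComp M T ∧ t ∈ T}
  let C : Subgroup G := Subgroup.centralizer K ⊓ N
  have hKconj : ∀ g t, t ∈ K → g * t * g⁻¹ ∈ K := by
    rintro g t ⟨M, T, hM, hMN, hM0, hmin, hT, ht⟩
    exact ⟨M, cj g T, hM, hMN, hM0, hmin, hT.conj g, conj_mem_cj ht⟩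
  have hCn : C.Normal := by
    constructor
    intro c hc g
    refine ⟨?_, hN.conj_mem c hc.2 g⟩
    refine Subgroup.mem_centralizer_iff.2 ?_
    intro t ht
    have h1 := hKconj g⁻¹ t ht
    have h2 := Subgroup.mem_centralizer_iff.1 hc.1 _ h1
    rw [inv_inv] at h2
    calc t * (g * c * g⁻¹) = g * (g⁻¹ * t * g * c) * g⁻¹ := by group
      _ = g * (c * (g⁻¹ * t * g)) * g⁻¹ := by rw [h2]
      _ = _ := by group
  have hC0 : C = ⊥ := by
    by_contra hC0
    obtain ⟨M, hM, hM0, hMC, hmin⟩ := exists_minimal_normal C hC0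
    have hMN : M ≤ N := hMC.trans inf_le_right
    have hna := hnab M hM hMN hM0 hmin
    obtain ⟨T, hT⟩ := exists_comp M hM0
    apply hT.not_comm hmin hna
    intro a ha b hb
    have hbC := hMC (hT.1 hb)
    exact Subgroup.mem_centralizer_iff.1 hbC.1 a ⟨M, T, hM, hMN, hM0, hmin, hT, ha⟩
  -- all conjugates of `x` are bad
  have hxg : ∀ g : G, ∀ m ∈ N, IsPi π (Subgroup.closure {g * x * g⁻¹,
      m * (g * x * g⁻¹) * m⁻¹}) := by
    intro g m hm
    have h1 : g⁻¹ * m * g ∈ N := by
      have := hN.conj_mem m hm g⁻¹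
      rwa [inv_inv] at this
    have h2 := (hx _ h1).map (MulAut.conj g).toMonoidHom
    rw [map_pair] at h2
    have h3 : (MulAut.conj g).toMonoidHom (g⁻¹ * m * g * x * (g⁻¹ * m * g)⁻¹) =
        m * (g * x * g⁻¹) * m⁻¹ := by
      change g * (g⁻¹ * m * g * x * (g⁻¹ * m * g)⁻¹) * g⁻¹ = _
      group
    rw [h3] at h2
    exact h2
  have hxord : ∀ g : G, orderOf (g * x * g⁻¹) = r := by
    intro g
    have h1 : MulAut.conj g x = g * x * g⁻¹ := rfl
    rw [← h1, MulEquiv.orderOf_eq, hord]
  -- main point: `x` is bad in `G`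
  have hbad : ∀ g : G, IsPi π (Subgroup.closure {x, g * x * g⁻¹}) := by
    intro g
    refine isPi_of_orders fun u hu p hp hup => ?_
    by_contra hpπ
    have huN : u ∈ N := (closure_pair_le hxN (hN.conj_mem x hxN g)) hu
    have huC : u ∈ C := by
      refine ⟨?_, huN⟩
      refine Subgroup.mem_centralizer_iff.2 ?_
      rintro t ⟨M, T, hM, hMN, hM0, hmin, hT, ht⟩
      have hna := hnab M hM hMN hM0 hmin
      have hMπ : ¬ IsPi π M := by
        intro h
        apply hM0
        rw [Subgroup.eq_bot_iff_forall]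
        intro m hm
        exact hR m (hMN hm) ⟨M, hM, h, hm⟩
      have hTπ : ¬ IsPi π T := hT.not_isPi hmin hMπ
      have hTN : T ≤ N := hT.1.trans hMN
      have hnorm : ∀ g : G, cj g T = T → g ∈ Subgroup.normalizer (T : Set G) := by
        intro g hg
        rw [Subgroup.mem_normalizer_iff]
        intro t
        refine ⟨fun ht => ?_, fun ht => ?_⟩
        · have := conj_mem_cj (g := g) ht
          rwa [hg] at this
        · rw [← hg] at ht
          rw [mem_cj] at ht
          have h1 : g⁻¹ * (g * t * g⁻¹) * g = t := by group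
          rwa [h1] at ht
      have hTnorm : ∀ t ∈ T, t ∈ Subgroup.normalizer (T : Set G) := fun t ht =>
        Subgroup.le_normalizer ht
      let f := T.normalizerMonoidHom
      have hf : ∀ (g : Subgroup.normalizer (T : Set G)) (t : T),
          ((f g t : T) : G) = g * t * (g : G)⁻¹ := fun g t => rfl
      -- `T` is good
      have hgoodT : GoodAt π r T := by
        have hnc := hT.not_comm hmin hna
        push Not at hnc
        obtain ⟨a, ha, b, hb, hab⟩ := hnc
        refine hgood T (hT.simple hmin) ⟨⟨a, ha⟩, ⟨b, hb⟩, fun h => ?_⟩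
          (compFactor_comp hM hMN hT)
        exact hab (congrArg Subtype.val h)
      -- bad elements of `N` act as bad automorphisms
      have hact : ∀ z : G, orderOf z = r → (∀ m ∈ N, IsPi π (Subgroup.closure {z, m * z * m⁻¹})) →
          ∃ hz : z ∈ Subgroup.normalizer (T : Set G), f ⟨z, hz⟩ = 1 ∨
            (orderOf (f ⟨z, hz⟩) = r ∧ BadAut π T (f ⟨z, hz⟩)) := by
        intro z hzr hzb
        have hz := hnorm z (hT.normalised hTπ z fun m hm => hzb m (hMN hm))
        refine ⟨hz, ?_⟩
        by_cases h1 : f ⟨z, hz⟩ = 1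
        · exact Or.inl h1
        refine Or.inr ⟨orderOf_eq_prime ?_ h1, fun s => ?_⟩
        · have h2 : (⟨z, hz⟩ : Subgroup.normalizer (T : Set G)) ^ r = 1 :=
            Subtype.ext (hzr ▸ pow_orderOf_eq_one z)
          rw [← map_pow, h2, map_one]
        · let s' : Subgroup.normalizer (T : Set G) := ⟨s, hTnorm s s.2⟩
          have hs : MulAut.conj s = f s' := by
            ext t
            rw [hf]
            rfl
          rw [hs, ← map_inv, ← map_mul, ← map_mul, ← map_pair]
          refine IsPi.map ?_ f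
          rw [← isPi_map_iff (Subgroup.subtype _) (Subgroup.subtype_injective _), map_pair]
          exact hzb s (hTN s.2)
      rcases hgoodT with ⟨y, hy1, hy⟩ | hpair
      · -- an element of `T` which is bad in `G`
        exfalso
        apply hy1
        have hyG : ∀ g : G, IsPi π (Subgroup.closure {(y : G), g * y * g⁻¹}) := by
          intro g
          by_cases hg : cj g T = T
          · have h1 := hy (f ⟨g, hnorm g hg⟩)
            rw [← isPi_map_iff T.subtype T.subtype_injective, map_pair] at h1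
            exact h1
          · refine isPi_of_commute (hT.commute (hT.conj g) (Ne.symm hg) y.2 (conj_mem_cj y.2))
              (orderOf (y : G)) (pow_orderOf_eq_one _) ?_ ?_
            · rw [conj_pow, pow_orderOf_eq_one]
              group
            · intro p hp hpd
              rw [Subgroup.orderOf_coe] at hpd
              exact (hy 1).orderOf (left_mem _ _) p hp hpd
        exact Subtype.ext (hR y (hTN y.2) (hrel y (hTN y.2) hyG))
      · obtain ⟨hz1, h1⟩ := hact x hord hx
        obtain ⟨hz2, h2⟩ := hact (g * x * g⁻¹) (hxord g) (hxg g)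
        set X : Subgroup.normalizer (T : Set G) := ⟨x, hz1⟩ with hX
        set Y : Subgroup.normalizer (T : Set G) := ⟨g * x * g⁻¹, hz2⟩ with hY
        have hXr : X ^ r = 1 := Subtype.ext (hord ▸ pow_orderOf_eq_one x)
        have hYr : Y ^ r = 1 := Subtype.ext ((hxord g) ▸ pow_orderOf_eq_one _)
        have hfX : (f X) ^ r = 1 := by rw [← map_pow, hXr, map_one]
        have hfY : (f Y) ^ r = 1 := by rw [← map_pow, hYr, map_one]
        have hrp : ∀ p : ℕ, p.Prime → p ∣ r → p ∈ π := fun p hp hpr => by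
          rwa [(Nat.prime_dvd_prime_iff_eq hp hr).1 hpr]
        have hπ : IsPi π (Subgroup.closure {f X, f Y}) := by
          rcases h1 with h1 | h1
          · rw [h1] at hfX ⊢
            exact isPi_of_commute (Commute.one_left _) r hfX hfY hrp
          · rcases h2 with h2 | h2
            · rw [h2] at hfY ⊢
              exact isPi_of_commute (Commute.one_right _) r hfX hfY hrp
            · exact hpair _ _ h1.1 h2.1 h1.2 h2.2
        obtain ⟨u', hu', hu''⟩ : ∃ u' : Subgroup.normalizer (T : Set G),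
            u' ∈ Subgroup.closure {X, Y} ∧ (u' : G) = u := by
          have h3 : u ∈ (Subgroup.closure {X, Y}).map (Subgroup.subtype _) := by
            rw [map_pair]
            exact hu
          obtain ⟨u', hu', h4⟩ := h3
          exact ⟨u', hu', h4⟩
        have hfu : f u' ∈ Subgroup.closure {f X, f Y} := by
          rw [← map_pair]
          exact Subgroup.mem_map_of_mem f hu'
        have hfu1 : f u' = 1 := by
          by_contra hne
          have hpF := Fact.mk hp
          have h5 : (f u') ^ p = 1 := by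
            have h6 : u' ^ p = 1 := by
              apply Subtype.ext
              rw [Subgroup.coe_pow, hu'', ← hup, pow_orderOf_eq_one]
              rfl
            rw [← map_pow, h6, map_one]
          have h7 : orderOf (f u') = p := orderOf_eq_prime h5 hne
          exact hpπ (hπ.orderOf hfu p hp (by rw [h7]))
        have h8 : ((f u' ⟨t, ht⟩ : T) : G) = t := by rw [hfu1]; rfl
        rw [hf, hu''] at h8
        exact (mul_inv_eq_iff_eq_mul.1 h8).symm
    rw [hC0, Subgroup.mem_bot] at huC
    rw [huC, orderOf_one] at hup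
    exact hp.one_lt.ne hup
  have hx1 : x = 1 := hR x hxN (hrel x hxN hbad)
  rw [hx1, orderOf_one] at hord
  exact hr.one_lt.ne hord

/-- The reduction. -/
theorem relative (n : ℕ) : ∀ (G : Type) [Group G] [Finite G] (N : Subgroup G) [N.Normal],
    Nat.card N = n → Hyp π N → RelBS π N →
    ∀ x ∈ N, (∀ m ∈ N, IsPi π (Subgroup.closure {x, m * x * m⁻¹})) → InRad π x := by
  induction n using Nat.strong_induction_on with
  | _ n ih =>
  intro G _ _ N hN hn hgood hrel
  -- normal subgroups of `G` properly contained in `N`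
  have hsub : ∀ C : Subgroup G, C.Normal → C ≤ N → C ≠ N → ∀ x ∈ C,
      (∀ m ∈ N, IsPi π (Subgroup.closure {x, m * x * m⁻¹})) → InRad π x := by
    intro C hC hCN hne x hx hbad
    have hlt : Nat.card C < n := by
      rw [← hn]
      refine lt_of_le_of_ne (Subgroup.card_le_of_le hCN) fun h => hne ?_
      exact Subgroup.eq_of_le_of_card_ge hCN h.ge
    refine ih _ hlt G C rfl ?_ (fun y hy => hrel y (hCN hy)) x hx
      fun m hm => hbad m (hCN hm)
    refine hgood.sub (Subgroup.inclusion hCN) (Subgroup.inclusion_injective hCN) ⟨?_⟩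
    rintro _ ⟨m, rfl⟩ g
    exact ⟨⟨g * m * g⁻¹, hC.conj_mem m m.2 g⟩, rfl⟩
  -- quotients
  have hquo : ∀ (P : Subgroup G) [P.Normal], P ≤ N → P ≠ ⊥ →
      RelBS π (N.map (QuotientGroup.mk' P)) →
      ∀ x ∈ N, (∀ m ∈ N, IsPi π (Subgroup.closure {x, m * x * m⁻¹})) →
        InRad π (QuotientGroup.mk' P x) := by
    intro P hP hPN hP0 hrelP x hx hbad
    have hlt : Nat.card (N.map (QuotientGroup.mk' P)) < n := by
      rw [← hn]
      have h1 := Subgroup.card_mul_index (((QuotientGroup.mk' P).comp N.subtype).ker)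
      rw [Subgroup.index_ker, MonoidHom.range_comp, Subgroup.range_subtype] at h1
      rw [← h1]
      refine lt_mul_of_one_lt_left Nat.card_pos ?_
      rw [Subgroup.one_lt_card_iff_ne_bot]
      intro h2
      apply hP0
      rw [Subgroup.eq_bot_iff_forall] at h2 ⊢
      intro p hp
      have := h2 ⟨p, hPN hp⟩ (by
        rw [MonoidHom.mem_ker]
        exact (QuotientGroup.eq_one_iff _).2 hp)
      exact congrArg Subtype.val this
    have hNq : (N.map (QuotientGroup.mk' P)).Normal :=
      hN.map _ (QuotientGroup.mk'_surjective P)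
    refine ih _ hlt (G ⧸ P) (N.map (QuotientGroup.mk' P)) rfl ?_ hrelP _
      (Subgroup.mem_map_of_mem _ hx) ?_
    · refine hgood.quo ((QuotientGroup.mk' P).subgroupMap N) ?_
      exact (QuotientGroup.mk' P).subgroupMap_surjective N
    · rintro _ ⟨m, hm, rfl⟩
      rw [← map_inv, ← map_mul, ← map_mul, ← map_pair]
      exact (hbad m hm).map _
  by_cases hR : ∀ y ∈ N, InRad π y → y = 1
  · -- trivial radical
    intro x hxN hbad
    by_contra hxR
    have hx1 : x ≠ 1 := by
      rintro rfl
      exact hxR ⟨⊥, inferInstance, isPi_bot, rfl⟩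
    obtain ⟨r, hr, hrd⟩ := Nat.exists_prime_and_dvd (n := orderOf x)
      (fun h => hx1 (orderOf_eq_one_iff.1 h))
    obtain ⟨j, hj⟩ := hrd
    have hj0 : j ≠ 0 := by
      rintro rfl
      exact (orderOf_pos x).ne' hj
    have hordx : orderOf (x ^ j) = r := by
      rw [orderOf_pow_of_dvd hj0 (hj ▸ Dvd.intro_left _ rfl), hj]
      exact Nat.mul_div_cancel _ (Nat.pos_of_ne_zero hj0)
    have hjN : x ^ j ∈ N := N.pow_mem hxN j
    have hjbad : ∀ m ∈ N, IsPi π (Subgroup.closure {x ^ j, m * x ^ j * m⁻¹}) :=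
      fun m hm => bad_pow (hbad m hm) j
    have hj1 : x ^ j ≠ 1 := by
      intro h
      rw [h, orderOf_one] at hordx
      exact hr.one_lt.ne hordx
    suffices h : InRad π (x ^ j) from hj1 (hR _ hjN h)
    generalize x ^ j = z at hordx hjN hjbad hj1
    by_cases hr2 : r = 2
    · exact hrel z hjN (involution N z hjN (hordx.trans hr2) hjbad)
    have hrπ : r ∈ π := (hjbad 1 N.one_mem).orderOf (left_mem _ _) r hr (by rw [hordx])
    exfalso
    rcases hgood r hrπ hr hr2 with hcyc | hgoodr
    · -- cyclic case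
      refine hj1 (hR z hjN (hrel z hjN fun g => ?_))
      obtain ⟨m, hm, hmz⟩ := cyclic_conj N hr hcyc hjN (hN.conj_mem z hjN g) hordx (by
        have h1 : MulAut.conj g z = g * z * g⁻¹ := rfl
        rw [← h1, MulEquiv.orderOf_eq, hordx])
      refine (hjbad m hm).mono (closure_pair_le (left_mem _ _) ?_)
      obtain ⟨k, hk⟩ := hmz
      rw [← hk]
      exact Subgroup.zpow_mem _ (right_mem _ _) k
    by_cases hnab : ∀ M : Subgroup G, M.Normal → M ≤ N → M ≠ ⊥ →
      (∀ K : Subgroup G, K.Normal → K ≤ M → K ≠ ⊥ → K = M) → ¬ ∀ a ∈ M, ∀ b ∈ M, a * b = b * a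
    · exact component_case N hnab hR hrel r hr hrπ hgoodr z hjN hordx hjbad
    push Not at hnab
    obtain ⟨M, hM, hMN, hM0, hmin, hab⟩ := hnab
    suffices h : InRad π z from hj1 (hR _ hjN h)
    · -- abelian case
      have hq : ∃ q : ℕ, q.Prime ∧ q ∣ Nat.card M := by
        refine Nat.exists_prime_and_dvd fun h => hM0 ?_
        exact Subgroup.card_eq_one.1 h
      obtain ⟨q, hq, hqd⟩ := hq
      have := Fact.mk hq
      let E : Subgroup G :=
        { carrier := {m | m ∈ M ∧ m ^ q = 1}
          one_mem' := ⟨M.one_mem, one_pow q⟩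
          mul_mem' := fun {a b} ha hb => ⟨M.mul_mem ha.1 hb.1, by
            have h1 : Commute a b := hab a ha.1 b hb.1
            rw [h1.mul_pow, ha.2, hb.2, one_mul]⟩
          inv_mem' := fun {a} ha => ⟨M.inv_mem ha.1, by rw [inv_pow, ha.2, inv_one]⟩ }
      have hE : E = M := by
        refine hmin E ⟨fun m hm g => ⟨hM.conj_mem m hm.1 g, ?_⟩⟩ (fun m hm => hm.1) ?_
        · rw [conj_pow, hm.2]
          group
        · intro h0
          obtain ⟨m, hm⟩ := exists_prime_orderOf_dvd_card' q hqd
          have h1 : (m : G) ∈ E := ⟨m.2, by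
            have h2 : m ^ q = 1 := by rw [← hm, pow_orderOf_eq_one]
            exact congrArg Subtype.val h2⟩
          rw [h0, Subgroup.mem_bot] at h1
          have h3 : m = 1 := Subtype.ext h1
          rw [h3, orderOf_one] at hm
          exact hq.one_lt.ne hm
      have hME : ∀ m ∈ M, m ^ q = 1 := by
        intro m hm
        rw [← hE] at hm
        exact hm.2
      have hqπ : q ∉ π := by
        intro hqπ
        apply hM0
        rw [Subgroup.eq_bot_iff_forall]
        intro m hm
        refine hR m (hMN hm) ⟨M, hM, ?_, hm⟩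
        refine isPi_of_orders fun z hz p hp hord => ?_
        have h1 : p ∣ q := hord ▸ orderOf_dvd_of_pow_eq_one (hME z hz)
        rwa [(Nat.prime_dvd_prime_iff_eq hp hq).1 h1]
      have hzM : ∀ m ∈ M, m * z = z * m := by
        intro m hm
        have h1 : z * m * z⁻¹ * m⁻¹ ∈ M := M.mul_mem (hM.conj_mem m hm z) (M.inv_mem hm)
        have h2 : z * m * z⁻¹ * m⁻¹ ∈ Subgroup.closure {z, m * z * m⁻¹} := by
          have h2 : z * m * z⁻¹ * m⁻¹ = z * (m * z * m⁻¹)⁻¹ := by group
          rw [h2]
          exact mul_mem (left_mem _ _) (inv_mem (right_mem _ _))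
        have h3 : z * m * z⁻¹ * m⁻¹ = 1 := by
          by_contra h3
          have h4 : orderOf (z * m * z⁻¹ * m⁻¹) = q := orderOf_eq_prime (hME _ h1) h3
          exact hqπ ((hjbad m (hMN hm)).orderOf h2 q hq (by rw [h4]))
        rw [mul_inv_eq_one, mul_inv_eq_iff_eq_mul] at h3
        exact h3.symm
      let C : Subgroup G := Subgroup.centralizer (M : Set G) ⊓ N
      have hzC : z ∈ C := ⟨Subgroup.mem_centralizer_iff.2 hzM, hjN⟩
      by_cases hCN : C = N
      · -- `M` central in `N`
        have hc : ∀ m ∈ M, ∀ u ∈ N, m * u = u * m := by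
          intro m hm u hu
          rw [← hCN] at hu
          exact Subgroup.mem_centralizer_iff.1 hu.1 m hm
        have h1 := hquo M hMN hM0 (rel_quotient_central N M q hq hqπ hME hc hrel) z hjN hjbad
        obtain ⟨K, hK, hKπ, hzK⟩ := h1
        let L : Subgroup G := K.comap (QuotientGroup.mk' M) ⊓ N
        have hL : L.Normal := inferInstance
        have hLπ : IsPi π (L.map (QuotientGroup.mk' M)) := by
          refine hKπ.mono ?_
          rintro _ ⟨l, hl, rfl⟩
          exact hl.1
        obtain ⟨W, k, hWL, hWπ, hk, hWm, hkk⟩ := central_aux M L q hq hqπ hME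
          (fun m hm u hu => hc m hm u hu.2) hLπ
        have hzL : z ∈ L := ⟨hzK, hjN⟩
        have hW : W.Normal := by
          constructor
          intro w hw g
          rw [hWm] at hw ⊢
          refine ⟨hL.conj_mem w hw.1 g, ?_⟩
          rw [conj_pow, hw.2]
          group
        refine ⟨W, hW, hWπ, (hWm z).2 ⟨hzL, ?_⟩⟩
        -- the order of `z` divides `k`
        have h2 : QuotientGroup.mk' M z ≠ 1 := by
          intro h3
          have h4 : z ∈ M := (QuotientGroup.eq_one_iff _).1 h3
          have h5 : orderOf z = q := orderOf_eq_prime (hME z h4) hj1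
          refine hqπ ((hjbad 1 N.one_mem).orderOf (left_mem _ _) q hq (by rw [h5]))
        have h3 : orderOf (QuotientGroup.mk' M z) = r := by
          have := Fact.mk hr
          refine orderOf_eq_prime ?_ h2
          rw [← map_pow, ← hordx, pow_orderOf_eq_one, map_one]
        have h4 : r ∣ k := by
          rw [hkk, ← h3]
          exact Subgroup.orderOf_dvd_natCard _ (Subgroup.mem_map_of_mem _ hzL)
        obtain ⟨i, rfl⟩ := h4
        rw [pow_mul, ← hordx, pow_orderOf_eq_one, one_pow]
      · exact hsub C inferInstance inf_le_right hCN z hzC hjbad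
  · -- nontrivial radical
    push Not at hR
    obtain ⟨y, hyN, hyR, hy1⟩ := hR
    obtain ⟨K, hK, hKπ, hyK⟩ := hyR
    let P : Subgroup G := K ⊓ N
    have hP : IsPi π P := hKπ.mono inf_le_left
    have hP0 : P ≠ ⊥ := by
      intro h0
      have : y ∈ P := ⟨hyK, hyN⟩
      rw [h0, Subgroup.mem_bot] at this
      exact hy1 this
    intro x hxN hbad
    obtain ⟨K', hK', hKπ', hxK'⟩ := hquo P inf_le_right hP0
      (rel_quotient_pi N P hP hrel) x hxN hbad
    refine ⟨K'.comap (QuotientGroup.mk' P), inferInstance, ?_, hxK'⟩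
    refine isPi_of_map (QuotientGroup.mk' P) (hKπ'.mono (Subgroup.map_comap_le _ _)) ?_
    rw [QuotientGroup.ker_mk']
    exact hP.mono inf_le_right

end Pool.Agent.BSpi
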