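import Pool.Agent.BSpi.Comp

set_option autoImplicit false

namespace Pool.Agent.BSpi

/-- `S` is obtained from `N` by passing repeatedly to homomorphic images and to normal subgroups.
For finite `N` and simple `S` this says that `S` is a composition factor of `N`. -/
inductive CompFactor (S : Type) [Group S] : (N : Type) → [Group N] → Prop
  | refl : CompFactor S S
  | quo {N Q : Type} [Group N] [Group Q] (f : N →* Q) (hf : Function.Surjective f)
      (h : CompFactor S Q) : CompFactor S N
  | sub {N K : Type} [Group N] [Group K] (f : K →* N) (hf : Function.Injective f)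
      (hn : f.range.Normal) (h : CompFactor S K) : CompFactor S N

/-- The automorphism `f` of `S` and each of its conjugates by an inner automorphism generate a
`π`-group. -/
def BadAut (π : Set ℕ) (S : Type) [Group S] (f : MulAut S) : Prop :=
  ∀ s : S, IsPi π (Subgroup.closure {f, MulAut.conj s * f * (MulAut.conj s)⁻¹})

/-- `S` has a nontrivial element `y` such that `y` and `β y` generate a `π`-group for every
automorphism `β` of `S`, or any two bad automorphisms of `S` of order `r` generate a `π`-group. -/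
def GoodAt (π : Set ℕ) (r : ℕ) (S : Type) [Group S] : Prop :=
  (∃ y : S, y ≠ 1 ∧ ∀ β : MulAut S, IsPi π (Subgroup.closure {y, β y})) ∨
    ∀ f f' : MulAut S, orderOf f = r → orderOf f' = r → BadAut π S f → BadAut π S f' →
      IsPi π (Subgroup.closure {f, f'})

/-- All subgroups of `N` of `r`-power order are cyclic. -/
def CyclicAt (r : ℕ) (N : Type) [Group N] : Prop :=
  ∀ P : Subgroup N, IsPGroup r P → IsCyclic P

/-- The hypothesis: for every odd prime `r ∈ π` all `r`-subgroups of `N` are cyclic or all nonabelian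
composition factors of `N` are good. -/
def Hyp (π : Set ℕ) (N : Type) [Group N] : Prop :=
  ∀ r ∈ π, r.Prime → r ≠ 2 → CyclicAt r N ∨
    ∀ (S : Type) [Group S] [Finite S], IsSimpleGroup S → (∃ a b : S, a * b ≠ b * a) →
      CompFactor S N → GoodAt π r S

variable {π : Set ℕ}

lemma CyclicAt.sub {r : ℕ} {N K : Type} [Group N] [Group K] (h : CyclicAt r N) (f : K →* N)
    (hf : Function.Injective f) : CyclicAt r K := by
  intro P hP
  have h1 := h (P.map f) (hP.map f)
  exact isCyclic_of_injective (P.equivMapOfInjective f hf).toMonoidHom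
    (P.equivMapOfInjective f hf).injective

lemma CyclicAt.quo {r : ℕ} (hr : r.Prime) {N Q : Type} [Group N] [Finite N] [Group Q]
    (h : CyclicAt r N) (f : N →* Q)
    (hf : Function.Surjective f) : CyclicAt r Q := by
  intro P hP
  have := Fact.mk hr
  -- a Sylow subgroup of the preimage maps onto `P`
  let H : Subgroup N := P.comap f
  obtain ⟨R⟩ : Nonempty (Sylow r H) := inferInstance
  let g : H →* P := (f.subgroupComap P)
  have hg : Function.Surjective g := by
    rintro ⟨p, hp⟩
    obtain ⟨n, rfl⟩ := hf p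
    exact ⟨⟨n, hp⟩, rfl⟩
  have hR : (R : Subgroup H).map g = ⊤ := by
    have hPf : Finite P := Finite.of_surjective g hg
    have h1 : ¬ r ∣ (R : Subgroup H).index := R.not_dvd_index
    have h2 : ((R : Subgroup H).map g).index ∣ (R : Subgroup H).index :=
      Subgroup.index_map_dvd _ hg
    obtain ⟨k, hk⟩ := hP.exists_card_eq
    have h3 : ((R : Subgroup H).map g).index ∣ r ^ k := hk ▸ Subgroup.index_dvd_card _
    obtain ⟨j, hj, hj2⟩ := (Nat.dvd_prime_pow hr).1 h3
    rcases Nat.eq_zero_or_pos j with h0 | h0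
    · rw [h0, pow_zero] at hj2
      exact Subgroup.index_eq_one.1 hj2
    · exfalso
      apply h1
      refine dvd_trans ?_ h2
      rw [hj2]
      exact dvd_pow_self r (by omega)
  have h1 : IsCyclic ((R : Subgroup H).map H.subtype) := h _ (R.isPGroup'.map _)
  have h2 : IsCyclic (R : Subgroup H) :=
    isCyclic_of_injective ((R : Subgroup H).equivMapOfInjective _ H.subtype_injective).toMonoidHom
      ((R : Subgroup H).equivMapOfInjective _ H.subtype_injective).injective
  refine isCyclic_of_surjective (g.comp (R : Subgroup H).subtype) fun p => ?_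
  have h3 : p ∈ (R : Subgroup H).map g := by rw [hR]; trivial
  obtain ⟨x, hx, rfl⟩ := h3
  exact ⟨⟨x, hx⟩, rfl⟩

lemma Hyp.quo {N Q : Type} [Group N] [Finite N] [Group Q] (h : Hyp π N) (f : N →* Q)
    (hf : Function.Surjective f) : Hyp π Q := by
  intro r hrπ hr hr2
  rcases h r hrπ hr hr2 with h1 | h1
  · exact Or.inl (h1.quo hr f hf)
  · exact Or.inr fun S _ _ hS hS2 hc => h1 S hS hS2 (CompFactor.quo f hf hc)

lemma Hyp.sub {N K : Type} [Group N] [Group K] (h : Hyp π N) (f : K →* N)
    (hf : Function.Injective f) (hn : f.range.Normal) : Hyp π K := by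
  intro r hrπ hr hr2
  rcases h r hrπ hr hr2 with h1 | h1
  · exact Or.inl (h1.sub f hf)
  · exact Or.inr fun S _ _ hS hS2 hc => h1 S hS hS2 (CompFactor.sub f hf hn hc)

variable {G : Type} [Group G]

/-- `G`-bad elements of `N` lie in the radical. -/
def RelBS (π : Set ℕ) (N : Subgroup G) : Prop :=
  ∀ y ∈ N, (∀ g : G, IsPi π (Subgroup.closure {y, g * y * g⁻¹})) → InRad π y

lemma InRad.map {G' : Type} [Group G'] {y : G} (h : InRad π y) (f : G →* G')
    (hf : Function.Surjective f) : InRad π (f y) := by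
  obtain ⟨M, hM, hMπ, hy⟩ := h
  exact ⟨M.map f, hM.map f hf, hMπ.map f, Subgroup.mem_map_of_mem f hy⟩

lemma rel_quotient_pi [Finite G] (N P : Subgroup G) [P.Normal] (hP : IsPi π P)
    (h : RelBS π N) : RelBS π (N.map (QuotientGroup.mk' P)) := by
  rintro _ ⟨y, hy, rfl⟩ hbad
  refine InRad.map (h y hy fun g => ?_) _ (QuotientGroup.mk'_surjective P)
  refine isPi_of_map (QuotientGroup.mk' P) ?_ ?_
  · rw [map_pair]
    have := hbad (QuotientGroup.mk' P g)
    rwa [← map_mul, ← map_inv, ← map_mul] at this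
  · rw [QuotientGroup.ker_mk']
    exact hP.mono inf_le_right

/-- If `M` is central in `U`, of exponent `q ∉ π` and the image of `U` modulo `M` is a `π`-group,
then the `π`-elements of `U` form a subgroup. -/
lemma central_aux [Finite G] (M U : Subgroup G) [M.Normal] (q : ℕ) (hq : q.Prime) (hqπ : q ∉ π)
    (hM : ∀ m ∈ M, m ^ q = 1) (hc : ∀ m ∈ M, ∀ u ∈ U, m * u = u * m)
    (hU : IsPi π (U.map (QuotientGroup.mk' M))) :
    ∃ W : Subgroup G, ∃ k : ℕ, W ≤ U ∧ IsPi π W ∧ (∀ p : ℕ, p.Prime → p ∣ k → p ∈ π) ∧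
      (∀ l, l ∈ W ↔ l ∈ U ∧ l ^ k = 1) ∧ k = Nat.card (U.map (QuotientGroup.mk' M)) := by
  have hcen : M.subgroupOf U ≤ Subgroup.center U := by
    intro m hm
    rw [Subgroup.mem_center_iff]
    intro u
    exact Subtype.ext (hc _ (Subgroup.mem_subgroupOf.1 hm) u u.2).symm
  have hidx : (M.subgroupOf U).index = Nat.card (U.map (QuotientGroup.mk' M)) := by
    have h1 : M.subgroupOf U = ((QuotientGroup.mk' M).comp U.subtype).ker := by
      ext z
      rw [Subgroup.mem_subgroupOf, MonoidHom.mem_ker]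
      exact (QuotientGroup.eq_one_iff _).symm
    rw [h1, Subgroup.index_ker, MonoidHom.range_comp, Subgroup.range_subtype]
  have hcop : Nat.Coprime (Nat.card (M.subgroupOf U)) (M.subgroupOf U).index := by
    rw [hidx]
    refine Nat.Coprime.symm ?_
    rw [Nat.coprime_comm]
    by_contra hnc
    obtain ⟨p, hp, hp1, hp2⟩ := Nat.Prime.not_coprime_iff_dvd.1 hnc
    have hpf := Fact.mk hp
    obtain ⟨z, hz⟩ := exists_prime_orderOf_dvd_card' p hp1
    have h2 : (z : U) ^ q = 1 := by
      have := hM _ (Subgroup.mem_subgroupOf.1 z.2)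
      exact Subtype.ext this
    have h3 : z ^ q = 1 := Subtype.ext h2
    have h4 : p ∣ q := hz ▸ orderOf_dvd_of_pow_eq_one h3
    have h5 : p = q := (Nat.prime_dvd_prime_iff_eq hp hq).1 h4
    exact hqπ (h5 ▸ hU p hp hp2)
  obtain ⟨W, hW, hWc⟩ := hall_central (M.subgroupOf U) hcen hcop
  refine ⟨W.map U.subtype, _, Subgroup.map_subtype_le W, ?_, ?_, ?_, rfl⟩
  · rw [isPi_map_iff _ U.subtype_injective]
    intro p hp hpd
    rw [hWc, hidx] at hpd
    exact hU p hp hpd
  · intro p hp hpd
    exact hU p hp hpd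
  · intro l
    rw [← hidx]
    constructor
    · rintro ⟨w, hw, rfl⟩
      exact ⟨w.2, congrArg Subtype.val ((hW w).1 hw)⟩
    · rintro ⟨hl, hl2⟩
      exact ⟨⟨l, hl⟩, (hW _).2 (Subtype.ext hl2), rfl⟩

lemma rel_quotient_central [Finite G] (N M : Subgroup G) [hN : N.Normal] [M.Normal]
    (q : ℕ) (hq : q.Prime) (hqπ : q ∉ π) (hM : ∀ m ∈ M, m ^ q = 1)
    (hc : ∀ m ∈ M, ∀ u ∈ N, m * u = u * m)
    (h : RelBS π N) : RelBS π (N.map (QuotientGroup.mk' M)) := by
  rintro _ ⟨y, hy, rfl⟩ hbad
  set f := QuotientGroup.mk' M with hf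
  have hm : ∀ p : ℕ, p.Prime → p ∣ orderOf (f y) → p ∈ π := fun p hp hpd =>
    (hbad 1).orderOf (left_mem _ _) p hp hpd
  have hqm : ¬ q ∣ orderOf (f y) := fun hd => hqπ (hm q hq hd)
  have hcop : Nat.Coprime (orderOf (f y)) q := ((Nat.Prime.coprime_iff_not_dvd hq).2 hqm).symm
  obtain ⟨k, hk1, hk2⟩ := Nat.chineseRemainder hcop 1 0
  have hk2' : q ∣ k := (Nat.modEq_zero_iff_dvd).1 hk2
  have hyk : f (y ^ k) = f y := by
    rw [map_pow]
    conv_rhs => rw [← pow_one (f y)]
    exact (pow_eq_pow_iff_modEq).2 hk1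
  have hym : (y ^ k) ^ orderOf (f y) = 1 := by
    obtain ⟨j, rfl⟩ := hk2'
    have h1 : y ^ orderOf (f y) ∈ M := by
      rw [← QuotientGroup.eq_one_iff]
      have := pow_orderOf_eq_one (f y)
      rw [← map_pow] at this
      exact this
    rw [← pow_mul, mul_comm (q * j), pow_mul, pow_mul, hM _ h1, one_pow]
  have hykN : y ^ k ∈ N := N.pow_mem hy k
  rw [← hyk]
  refine InRad.map (h (y ^ k) hykN fun g => ?_) _ (QuotientGroup.mk'_surjective M)
  set U := Subgroup.closure {y ^ k, g * y ^ k * g⁻¹} with hU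
  have hUN : U ≤ N := closure_pair_le hykN (hN.conj_mem _ hykN g)
  have hUmap : U.map f = Subgroup.closure {f y, f g * f y * (f g)⁻¹} := by
    rw [hU, map_pair, map_mul, map_mul, map_inv, hyk]
  have hUπ : IsPi π (U.map f) := hUmap ▸ hbad (f g)
  obtain ⟨W, k', hWU, hWπ, -, hWm, hk'⟩ := central_aux M U q hq hqπ hM
    (fun m hm u hu => hc m hm u (hUN hu)) hUπ
  have hord : orderOf (f y) ∣ k' := by
    rw [hk']
    refine Subgroup.orderOf_dvd_natCard _ ?_
    rw [← hf, hUmap]
    exact left_mem _ _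
  have hyW : (y ^ k) ^ k' = 1 := by
    obtain ⟨j, rfl⟩ := hord
    rw [pow_mul, hym, one_pow]
  refine hWπ.mono (closure_pair_le ((hWm _).2 ⟨left_mem _ _, hyW⟩)
    ((hWm _).2 ⟨right_mem _ _, ?_⟩))
  rw [conj_pow, hyW]
  group

end Pool.Agent.BSpi
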