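import Pool.Agent.BSpi.Basic

set_option autoImplicit false

namespace Pool.Agent.BSpi

variable {π : Set ℕ} {G : Type} [Group G]

lemma map_pair {G' : Type} [Group G'] (f : G →* G') (x y : G) :
    (Subgroup.closure {x, y}).map f = Subgroup.closure {f x, f y} := by
  rw [MonoidHom.map_closure, Set.image_pair]

lemma left_mem (x y : G) : x ∈ Subgroup.closure {x, y} := Subgroup.subset_closure (Or.inl rfl)

lemma right_mem (x y : G) : y ∈ Subgroup.closure {x, y} := Subgroup.subset_closure (Or.inr rfl)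

lemma closure_pair_le {x y : G} {H : Subgroup G} (hx : x ∈ H) (hy : y ∈ H) :
    Subgroup.closure {x, y} ≤ H := by
  rw [Subgroup.closure_le]
  rintro z (rfl | rfl)
  · exact hx
  · exact hy

/-- Powers of bad elements are bad. -/
lemma bad_pow {x g : G} (h : IsPi π (Subgroup.closure {x, g * x * g⁻¹})) (m : ℕ) :
    IsPi π (Subgroup.closure {x ^ m, g * x ^ m * g⁻¹}) := by
  refine h.mono (closure_pair_le (Subgroup.pow_mem _ (left_mem _ _) m) ?_)
  rw [← conj_pow]
  exact Subgroup.pow_mem _ (right_mem _ _) m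

/-- A group generated by two involutions is dihedral. -/
lemma dihedral (X Y : G) (hX : X * X = 1) (hY : Y * Y = 1) (h : G)
    (hh : h ∈ Subgroup.closure {X, Y}) :
    (∃ i : ℤ, h = (X * Y) ^ i) ∨ ∃ i : ℤ, h = X * (X * Y) ^ i := by
  have hXi : X⁻¹ = X := inv_eq_of_mul_eq_one_left hX
  have hYi : Y⁻¹ = Y := inv_eq_of_mul_eq_one_left hY
  have hconj : ∀ i : ℤ, X * (X * Y) ^ i * X = (X * Y) ^ (-i) := by
    intro i
    have h1 : X * (X * Y) * X⁻¹ = (X * Y)⁻¹ := by
      rw [mul_inv_rev, hXi, hYi, ← mul_assoc, hX, one_mul]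
    have h2 : (X * (X * Y) * X⁻¹) ^ i = X * (X * Y) ^ i * X⁻¹ := conj_zpow
    rw [h1, hXi] at h2
    rw [← h2, inv_zpow, zpow_neg]
  have hconj' : ∀ i : ℤ, (X * Y) ^ i * X = X * (X * Y) ^ (-i) := by
    intro i
    rw [← hconj, ← mul_assoc, ← mul_assoc, hX, one_mul]
  induction hh using Subgroup.closure_induction with
  | mem x hx =>
    rcases hx with rfl | rfl
    · exact Or.inr ⟨0, by rw [zpow_zero, mul_one]⟩
    · exact Or.inr ⟨1, by rw [zpow_one, ← mul_assoc, hX, one_mul]⟩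
  | one => exact Or.inl ⟨0, by rw [zpow_zero]⟩
  | mul x y _ _ ihx ihy =>
    rcases ihx with ⟨i, rfl⟩ | ⟨i, rfl⟩ <;> rcases ihy with ⟨j, rfl⟩ | ⟨j, rfl⟩
    · exact Or.inl ⟨i + j, by rw [zpow_add]⟩
    · exact Or.inr ⟨-i + j, by rw [← mul_assoc, hconj', mul_assoc, zpow_add]⟩
    · exact Or.inr ⟨i + j, by rw [mul_assoc, zpow_add]⟩
    · exact Or.inl ⟨-i + j, by rw [← mul_assoc, hconj, zpow_add]⟩
  | inv x _ ih =>
    rcases ih with ⟨i, rfl⟩ | ⟨i, rfl⟩
    · exact Or.inl ⟨-i, by rw [zpow_neg]⟩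
    · exact Or.inr ⟨i, by rw [mul_inv_rev, hXi, ← zpow_neg, hconj', neg_neg]⟩

/-- Involutions: bad in a normal subgroup implies bad in the group. -/
lemma involution [Finite G] (N : Subgroup G) [N.Normal] (x : G) (hxN : x ∈ N) (hx2 : orderOf x = 2)
    (hx : ∀ n ∈ N, IsPi π (Subgroup.closure {x, n * x * n⁻¹})) (g : G) :
    IsPi π (Subgroup.closure {x, g * x * g⁻¹}) := by
  have h2π : 2 ∈ π :=
    (hx 1 N.one_mem).orderOf (left_mem _ _) 2 Nat.prime_two (by rw [hx2])
  refine isPi_of_orders fun h hh s hs hord => ?_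
  by_contra hsπ
  have hs2 : s ≠ 2 := fun h => hsπ (h ▸ h2π)
  set y := g * x * g⁻¹ with hy
  have hyN : y ∈ N := Subgroup.Normal.conj_mem inferInstance x hxN g
  have hX : x * x = 1 := by rw [← pow_two, ← hx2, pow_orderOf_eq_one]
  have hY : y * y = 1 := by
    rw [hy, ← pow_two, conj_pow, pow_two, hX]
    group
  have hYi : y⁻¹ = y := inv_eq_of_mul_eq_one_left hY
  have hh1 : h ≠ 1 := by
    rintro rfl
    rw [orderOf_one] at hord
    exact hs.one_lt.ne hord
  have hcop : ∀ t : ℕ, ¬ s ∣ t → h ^ t = 1 → False := by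
    intro t ht hqt
    exact ht (hord ▸ orderOf_dvd_of_pow_eq_one hqt)
  have hs2' : ¬ s ∣ 2 := fun hd => hs2 ((Nat.prime_dvd_prime_iff_eq hs Nat.prime_two).1 hd)
  let w : G := x * (y * x * y⁻¹)
  have hw : ¬ s ∣ orderOf w := by
    intro hd
    exact hsπ ((hx y hyN).orderOf (x := w) (mul_mem (left_mem _ _) (right_mem _ _)) s hs hd)
  have hqw : (x * y) ^ 2 = w := by
    simp only [w, hYi, pow_two, mul_assoc]
  rcases dihedral x y hX hY h hh with ⟨i, hi⟩ | ⟨i, hi⟩
  · refine hcop (2 * orderOf w) (fun hd => ?_) ?_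
    · rcases hs.dvd_mul.1 hd with h1 | h1
      · exact hs2' h1
      · exact hw h1
    · rw [hi, ← zpow_natCast, ← zpow_mul, mul_comm, zpow_mul, zpow_natCast, pow_mul, hqw,
        pow_orderOf_eq_one, one_zpow]
  · refine hcop 2 hs2' ?_
    have h1 : x * (x * y) ^ i * (x * (x * y) ^ i) = 1 := by
      have hXi : x⁻¹ = x := inv_eq_of_mul_eq_one_left hX
      have h2 : x * (x * y) * x⁻¹ = (x * y)⁻¹ := by
        rw [mul_inv_rev, hXi, hYi, ← mul_assoc, hX, one_mul]
      have h3 : (x * (x * y) * x⁻¹) ^ i = x * (x * y) ^ i * x⁻¹ := conj_zpow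
      rw [h2, hXi] at h3
      rw [← mul_assoc, ← h3, inv_zpow, inv_mul_cancel]
    rw [hi, pow_two, h1]

/-- Commuting `π`-elements generate a `π`-group. -/
lemma isPi_of_commute [Finite G] {x y : G} (h : Commute x y) (k : ℕ) (hx : x ^ k = 1)
    (hy : y ^ k = 1) (hk : ∀ p : ℕ, p.Prime → p ∣ k → p ∈ π) :
    IsPi π (Subgroup.closure {x, y}) := by
  have h1 : ∀ z ∈ Subgroup.closure {x, y}, z ^ k = 1 := by
    intro z hz
    obtain ⟨i, j, rfl⟩ : ∃ i j : ℤ, z = x ^ i * y ^ j := by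
      induction hz using Subgroup.closure_induction with
      | mem z hz =>
        rcases hz with rfl | rfl
        · exact ⟨1, 0, by simp⟩
        · exact ⟨0, 1, by simp⟩
      | one => exact ⟨0, 0, by simp⟩
      | mul a b _ _ iha ihb =>
        obtain ⟨i, j, rfl⟩ := iha
        obtain ⟨i', j', rfl⟩ := ihb
        refine ⟨i + i', j + j', ?_⟩
        have h2 : Commute (y ^ j) (x ^ i') := (h.symm.zpow_zpow j i')
        rw [zpow_add, zpow_add, mul_assoc, ← mul_assoc (y ^ j), h2.eq, mul_assoc, ← mul_assoc,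
          ← mul_assoc]
      | inv a _ ih =>
        obtain ⟨i, j, rfl⟩ := ih
        refine ⟨-i, -j, ?_⟩
        have h2 : Commute (x ^ i) (y ^ j) := h.zpow_zpow i j
        rw [h2.eq, mul_inv_rev, zpow_neg, zpow_neg]
    have h2 : Commute (x ^ i) (y ^ j) := h.zpow_zpow i j
    rw [h2.mul_pow, ← zpow_natCast, ← zpow_mul, mul_comm, zpow_mul, zpow_natCast, hx, one_zpow,
      one_mul, ← zpow_natCast, ← zpow_mul, mul_comm, zpow_mul, zpow_natCast, hy, one_zpow]
  refine isPi_of_orders fun z hz p hp hord => hk p hp ?_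
  rw [← hord]
  exact orderOf_dvd_of_pow_eq_one (h1 z hz)

/-- A central normal Hall subgroup has a characteristic complement. -/
lemma hall_central {L : Type} [Group L] [Finite L] (M : Subgroup L)
    (hM : M ≤ Subgroup.center L) (hc : Nat.Coprime (Nat.card M) M.index) :
    ∃ W : Subgroup L, (∀ l, l ∈ W ↔ l ^ M.index = 1) ∧ Nat.card W = M.index := by
  have hMn : M.Normal := by
    constructor
    intro m hm g
    have h1 := (Subgroup.mem_center_iff.1 (hM hm)) g
    rw [h1, mul_assoc, mul_inv_cancel, mul_one]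
    exact hm
  obtain ⟨W, hW⟩ := Subgroup.exists_right_complement'_of_coprime hc
  have hcard : Nat.card W = M.index := hW.symm.index_eq_card.symm
  refine ⟨W, fun l => ⟨fun hl => ?_, fun hl => ?_⟩, hcard⟩
  · rw [← hcard]
    have := pow_card_eq_one' (x := (⟨l, hl⟩ : W))
    exact congrArg Subtype.val this
  · have h2 : l ∈ M ⊔ W := by rw [hW.sup_eq_top]; trivial
    obtain ⟨m, hm, w, hw, rfl⟩ := Subgroup.mem_sup_of_normal_left.1 h2
    have h3 : Commute m w := ((Subgroup.mem_center_iff.1 (hM hm)) w).symm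
    rw [h3.mul_pow] at hl
    have h4 : w ^ M.index = 1 := by
      rw [← hcard]
      have := pow_card_eq_one' (x := (⟨w, hw⟩ : W))
      exact congrArg Subtype.val this
    rw [h4, mul_one] at hl
    have h5 : m ^ Nat.card M = 1 := by
      have := pow_card_eq_one' (x := (⟨m, hm⟩ : M))
      exact congrArg Subtype.val this
    have h6 : m = 1 := by
      rw [← orderOf_eq_one_iff]
      exact Nat.eq_one_of_dvd_coprimes hc (orderOf_dvd_of_pow_eq_one h5)
        (orderOf_dvd_of_pow_eq_one hl)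
    rw [h6, one_mul]
    exact hw

/-- Minimal normal subgroups exist. -/
lemma exists_minimal_normal [Finite G] (N : Subgroup G) [N.Normal] (hN : N ≠ ⊥) :
    ∃ M : Subgroup G, M.Normal ∧ M ≠ ⊥ ∧ M ≤ N ∧
      ∀ K : Subgroup G, K.Normal → K ≤ M → K ≠ ⊥ → K = M := by
  have hfin : {K : Subgroup G | K.Normal ∧ K ≠ ⊥ ∧ K ≤ N}.Finite := Set.toFinite _
  obtain ⟨M, hM, hmin⟩ := hfin.exists_minimal ⟨N, inferInstance, hN, le_rfl⟩
  refine ⟨M, hM.1, hM.2.1, hM.2.2, fun K hK hKM hK0 => ?_⟩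
  exact le_antisymm hKM (hmin ⟨hK, hK0, hKM.trans hM.2.2⟩ hKM)

end Pool.Agent.BSpi
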